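import Pool.Agent.SQG.Mat

set_option autoImplicit false

/-! [SQG-Bar] a family of subsets with a cyclic structure is not the family of the nonsingular minors -/

open Finset Matrix

namespace SQG

/-- conditions on a family of (ordered) subsets of `ι × Bool` -/
structure CycFam {ι : Type} (ν : Equiv.Perm ι) (Fam : (m : ℕ) → (Fin m → ι × Bool) → Prop) : Prop where
  one : ∀ p, ¬ Fam 1 ![p]
  adj : ∀ v i j, Fam 2 ![(v, i), (ν v, j)]
  non : ∀ v i w j, (v, i) ≠ (w, j) → w ≠ ν v → w ≠ ν.symm v → ¬ Fam 2 ![(v, i), (w, j)]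
  rank : ∀ v, ¬ Fam 4 ![(v, false), (v, true), (ν v, false), (ν v, true)]
  ind : ∀ v, Fam 4 ![(v, false), (v, true), (ν v, false), (ν.symm v, false)]
  all : ∀ (m : ℕ) (e : Fin m ≃ ι × Bool), ¬ Fam m e

theorem barrier {ι : Type} [Fintype ι] [DecidableEq ι] {ν : Equiv.Perm ι} (h1 : ∀ v, ν v ≠ v)
    (h2 : ∀ v, ν v ≠ ν.symm v) {K : Type} [Field K] (S : Matrix (ι × Bool) (ι × Bool) K) (ε : K)
    (hε : ε ≠ 0) (hS : ∀ p q, S q p = ε * S p q) {Fam : (m : ℕ) → (Fin m → ι × Bool) → Prop}
    (hC : CycFam ν Fam)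
    (hF : ∀ (m : ℕ) (e : Fin m → ι × Bool), Function.Injective e → (Fam m e ↔ (S.submatrix e e).det ≠ 0)) :
    False := by
  have h1' : ∀ v, ν.symm v ≠ v := fun v h => h1 v ((ν.symm_apply_eq.1 h).symm)
  have hd : ∀ p, S p p = 0 := by
    intro p
    by_contra h
    apply hC.one p
    rw [hF 1 ![p] (fun a b _ => Subsingleton.elim a b)]
    rw [det_fin_one]
    simpa using h
  have inj2 : ∀ p q : ι × Bool, p ≠ q → Function.Injective ![p, q] := by
    intro p q hpq a b
    fin_cases a <;> fin_cases b <;> intro h <;>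
      first | rfl | exact absurd h hpq | exact absurd h.symm hpq
  have h2e : ∀ p q, p ≠ q → (Fam 2 ![p, q] ↔ S p q ≠ 0) := by
    intro p q hpq
    rw [hF 2 _ (inj2 p q hpq), det2 S p q ε hS (hd p) (hd q)]
    constructor
    · intro h h'
      apply h
      rw [h']; ring
    · intro h h'
      have h3 : ε * (S p q * S p q) = 0 := by linear_combination -h'
      rcases mul_eq_zero.1 h3 with h4 | h4
      · exact hε h4
      · exact h (by simpa using h4)
  have h0 : ∀ v i w j, w ≠ ν v → w ≠ ν.symm v → S (v, i) (w, j) = 0 := by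
    intro v i w j hw hw'
    by_cases hp : (v, i) = (w, j)
    · rw [← hp]; exact hd _
    · by_contra h
      exact hC.non v i w j hp hw hw' ((h2e _ _ hp).2 h)
  have hne : ∀ v i j, S (v, i) (ν v, j) ≠ 0 := by
    intro v i j
    have hp : (v, i) ≠ (ν v, j) := fun h => h1 v (congrArg Prod.fst h).symm
    exact (h2e _ _ hp).1 (hC.adj v i j)
  have same : ∀ v, S (v, false) (v, true) = 0 := fun v => h0 v false v true (h1 v).symm (h1' v).symm
  have inj4 : ∀ a b c d : ι × Bool, a ≠ b → a ≠ c → a ≠ d → b ≠ c → b ≠ d → c ≠ d →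
      Function.Injective ![a, b, c, d] := by
    intro a b c d hab hac had hbc hbd hcd x y
    fin_cases x <;> fin_cases y <;> intro h <;>
      first | rfl | exact absurd h hab | exact absurd h hac | exact absurd h had | exact absurd h hbc |
        exact absurd h hbd | exact absurd h hcd | exact absurd h.symm hab | exact absurd h.symm hac |
        exact absurd h.symm had | exact absurd h.symm hbc | exact absurd h.symm hbd | exact absurd h.symm hcd
  have e1 : ∀ (v w : ι) (i j : Bool), v ≠ w → (v, i) ≠ (w, j) := fun v w i j h h' => h (congrArg Prod.fst h')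
  have e2 : ∀ v : ι, (v, false) ≠ (v, true) := fun v h => by simp at h
  have hr : ∀ v, S (v, false) (ν v, false) * S (v, true) (ν v, true) =
      S (v, false) (ν v, true) * S (v, true) (ν v, false) := by
    intro v
    by_contra h
    apply hC.rank v
    rw [hF 4 _ (inj4 _ _ _ _ (e2 v) (e1 _ _ _ _ (h1 v).symm) (e1 _ _ _ _ (h1 v).symm) (e1 _ _ _ _ (h1 v).symm)
      (e1 _ _ _ _ (h1 v).symm) (e2 _)), det4 S _ _ _ _ ε hS (hd _) (hd _) (hd _) (hd _) (same v)]
    have h3 : ε * (S (v, false) (ν v, false) * S (v, true) (ν v, true) -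
        S (v, false) (ν v, true) * S (v, true) (ν v, false)) ≠ 0 := mul_ne_zero hε (sub_ne_zero.2 h)
    exact mul_ne_zero h3 h3
  have hi : ∀ v, S (v, false) (ν v, false) * S (v, true) (ν.symm v, false) ≠
      S (v, false) (ν.symm v, false) * S (v, true) (ν v, false) := by
    intro v h
    have h3 := hC.ind v
    rw [hF 4 _ (inj4 _ _ _ _ (e2 v) (e1 _ _ _ _ (h1 v).symm) (e1 _ _ _ _ (h1' v).symm) (e1 _ _ _ _ (h1 v).symm)
      (e1 _ _ _ _ (h1' v).symm) (e1 _ _ _ _ (h2 v))), det4 S _ _ _ _ ε hS (hd _) (hd _) (hd _) (hd _) (same v)] at h3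
    apply h3
    rw [sub_eq_zero.2 h]
    ring
  have hdet := core ν h2 S ε hS h0 hr hne hi
  have e := (Fintype.equivFin (ι × Bool)).symm
  apply hC.all _ e
  rw [hF _ e e.injective, det_submatrix_equiv_self]
  exact hdet

end SQG
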