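import Pool.Agent.SQG.S

set_option autoImplicit false
set_option linter.unusedSectionVars false
set_option linter.unusedVariables false

/-! [SQG-C] cycles with at least two outer edges at every vertex: no linear gadget -/

open Finset Matrix
open scoped Classical

namespace SQG

/-- two ports at every vertex -/
def sp {U : Type} (n : U → ℕ) (h : ∀ w, 2 ≤ n w) (q : U × Bool) : Port n :=
  ⟨q.1, ⟨if q.2 then 1 else 0, by have := h q.1; split <;> omega⟩⟩

/-- (C0) PROOF. `sp n h q = sp n h q'` gives `q.1 = q'.1` (first components) and then, after `subst`/`cases`, equality of the second components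
(`0 ≠ 1` in `ℕ`, look at `.2.val`; `congrArg (fun p : Port n => (p.2 : ℕ))`). -/
theorem sp_inj {U : Type} (n : U → ℕ) (h : ∀ w, 2 ≤ n w) : Function.Injective (sp n h) := by
  intro q q' hq
  have h1 : q.1 = q'.1 := congrArg Sigma.fst hq
  have h2 : (if q.2 then 1 else 0 : ℕ) = if q'.2 then 1 else 0 :=
    congrArg (fun p : Port n => (p.2 : ℕ)) hq
  refine Prod.ext h1 ?_
  rcases hb : q.2 with _ | _ <;> rcases hb' : q'.2 with _ | _ <;> rw [hb, hb'] at h2 <;> simp_all

/-- (C1) PROOF. It suffices that for every `w` the number of elements of the image at `w` is `2 - xc e w` (and `xc e w ≤ 2`), then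
`dg + (2 - xc) = 2 ↔ dg = xc` by `omega`. The filter `{p ∈ image | p.1 = w}` is the image under the injective map `b ↦ sp n h (w, b)` of
`{b : Bool | ∀ i, e i ≠ (w, b)}` (`card_image_of_injective`), the complement of the set defining `xc e w` in `Bool` (2 elements):
`Finset.card_filter_add_card_filter_not`-type lemma / `Finset.filter_card_add_filter_neg_card_eq_card`. -/
theorem ext_compl {U : Type} [Fintype U] [DecidableEq U] (Al : SimpleGraph U → Prop) (n : U → ℕ)
    (h : ∀ w, 2 ≤ n w) {k : ℕ} (e : Fin k → U × Bool) :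
    Ext Al n ((univ.filter (fun q : U × Bool => ∀ i, e i ≠ q)).image (sp n h)) ↔
      ∃ I : SimpleGraph U, Al I ∧ ∀ w, SQF.dg I.Adj w = xc e w := by
  have key : ∀ w, xc e w + (((univ.filter (fun q : U × Bool => ∀ i, e i ≠ q)).image (sp n h)).filter
      (fun p => p.1 = w)).card = 2 := by
    intro w
    have h1 : ((univ.filter (fun q : U × Bool => ∀ i, e i ≠ q)).image (sp n h)).filter
        (fun p => p.1 = w) = (univ.filter (fun b : Bool => ∀ i, e i ≠ (w, b))).image
          (fun b => sp n h (w, b)) := by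
      ext p
      rw [mem_filter, mem_image, mem_image]
      constructor
      · rintro ⟨⟨q, hq, rfl⟩, hw⟩
        have hw' : q.1 = w := hw
        refine ⟨q.2, ?_, ?_⟩
        · rw [mem_filter] at hq ⊢
          refine ⟨mem_univ _, fun i => ?_⟩
          rw [← hw']
          exact hq.2 i
        · rw [← hw']
      · rintro ⟨b, hb, rfl⟩
        rw [mem_filter] at hb
        exact ⟨⟨(w, b), mem_filter.2 ⟨mem_univ _, hb.2⟩, rfl⟩, rfl⟩
    rw [h1, card_image_of_injective _ (fun b b' hbb => by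
      have := sp_inj n h hbb
      exact congrArg Prod.snd this)]
    unfold xc
    have h2 := Finset.card_filter_add_card_filter_not (s := (univ : Finset Bool))
      (fun b : Bool => ∃ i, e i = (w, b))
    have h3 : (univ.filter (fun b : Bool => ¬ ∃ i, e i = (w, b))) =
        univ.filter (fun b : Bool => ∀ i, e i ≠ (w, b)) := by
      ext b
      simp
    rw [h3] at h2
    simpa using h2
  unfold Ext
  constructor
  · rintro ⟨I, hI, hd⟩
    refine ⟨I, hI, fun w => ?_⟩
    have h1 := hd w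
    have h2 := key w
    omega
  · rintro ⟨I, hI, hd⟩
    refine ⟨I, hI, fun w => ?_⟩
    have h1 := hd w
    have h2 := key w
    omega

section
variable {ι : Type} [Fintype ι] [DecidableEq ι] {ν : Equiv.Perm ι}

/-- the family of the cycle -/
def FamC (ν : Equiv.Perm ι) (k : ℕ) (e : Fin k → ι × Bool) : Prop :=
  ∃ I : SimpleGraph ι, (I ≤ pg ν ∧ I ≠ pg ν) ∧ ∀ w, SQF.dg I.Adj w = xc e w

omit [DecidableEq ι] in
theorem c2_exists {I : SimpleGraph ι} {w : ι} (h : 0 < SQF.dg I.Adj w) : ∃ u, I.Adj w u := by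
  unfold SQF.dg at h
  obtain ⟨u, hu⟩ := card_pos.1 h
  exact ⟨u, (mem_filter.1 hu).2⟩

omit [DecidableEq ι] in
theorem c2_pos {I : SimpleGraph ι} {w u : ι} (h : I.Adj w u) : 0 < SQF.dg I.Adj w := by
  unfold SQF.dg
  exact card_pos.2 ⟨u, mem_filter.2 ⟨mem_univ _, h⟩⟩

omit [Fintype ι] in
theorem c2_xc_pos {k : ℕ} {e : Fin k → ι × Bool} {w : ι} (i : Fin k) (h : (e i).1 = w) : 0 < xc e w := by
  unfold xc
  refine card_pos.2 ⟨(e i).2, mem_filter.2 ⟨mem_univ _, i, ?_⟩⟩
  rw [← h]

omit [Fintype ι] in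
theorem c2_xc_mem {k : ℕ} {e : Fin k → ι × Bool} {w : ι} (h : 0 < xc e w) : ∃ i, (e i).1 = w := by
  unfold xc at h
  obtain ⟨b, hb⟩ := card_pos.1 h
  obtain ⟨i, hi⟩ := (mem_filter.1 hb).2
  exact ⟨i, by rw [hi]⟩

theorem c2_next {k : ℕ} {e : Fin k → ι × Bool} {I : SimpleGraph ι} (hI : ∀ w, SQF.dg I.Adj w = xc e w)
    (i : Fin k) : ∃ j, I.Adj (e i).1 (e j).1 := by
  have h1 : 0 < SQF.dg I.Adj (e i).1 := by
    rw [hI]
    exact c2_xc_pos i rfl
  obtain ⟨u, hu⟩ := c2_exists h1
  have h2 : 0 < xc e u := by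
    rw [← hI]
    exact c2_pos hu.symm
  obtain ⟨j, hj⟩ := c2_xc_mem h2
  refine ⟨j, ?_⟩
  rw [hj]
  exact hu

theorem c2_two {I : SimpleGraph ι} (hle : I ≤ pg ν) {w : ι} (hd : SQF.dg I.Adj w = 2) :
    I.Adj w (ν w) ∧ I.Adj w (ν.symm w) := by
  have hs : univ.filter (fun u => I.Adj w u) ⊆ {ν w, ν.symm w} := by
    intro u hu
    have h1 := (hle (mem_filter.1 hu).2).2
    rcases h1 with h1 | h1
    · rw [h1]
      exact mem_insert_self _ _
    · rw [h1, Equiv.symm_apply_apply]
      exact mem_insert_of_mem (mem_singleton_self _)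
  have hc : ({ν w, ν.symm w} : Finset ι).card ≤ (univ.filter (fun u => I.Adj w u)).card := by
    unfold SQF.dg at hd
    have h3 : (univ.filter (fun u => I.Adj w u)).card = 2 := by
      convert hd
    rw [h3]
    exact card_le_two
  have heq := eq_of_subset_of_card_le hs hc
  constructor
  · have : ν w ∈ univ.filter (fun u => I.Adj w u) := by
      rw [heq]
      exact mem_insert_self _ _
    exact (mem_filter.1 this).2
  · have : ν.symm w ∈ univ.filter (fun u => I.Adj w u) := by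
      rw [heq]
      exact mem_insert_of_mem (mem_singleton_self _)
    exact (mem_filter.1 this).2

/-- (C2a) PROOF. `dg I.Adj p.1 = xc ![p] p.1 = 1`, so some `u` with `I.Adj p.1 u`, `u ≠ p.1`, and `dg I.Adj u ≥ 1` (it contains `p.1`), but `xc ![p] u = 0`
(an `(u, b)` in the range of `![p]` has `u = p.1`). -/
theorem famC_one (p : ι × Bool) : ¬ FamC ν 1 ![p] := by
  rintro ⟨I, -, hI⟩
  obtain ⟨j, hj⟩ := c2_next hI 0
  have hj0 : j = 0 := Subsingleton.elim _ _
  rw [hj0] at hj
  exact hj.ne rfl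

/-- (C2b) PROOF. If `w = v` (then `i ≠ j`): `dg I.Adj v = 2`, take a neighbour `u ≠ v`; `dg I.Adj u ≥ 1`, but `xc _ u = 0`. If `w ≠ v`: `xc _ v = 1`, so `v` has a neighbour `u`,
`xc _ u ≥ 1`, so `u ∈ {v, w}`, `u = w`; `I ≤ pg ν` gives `w = ν v` or `v = ν w` (i.e. `w = ν.symm v`), contradiction. -/
theorem famC_non (v : ι) (i : Bool) (w : ι) (j : Bool) (hp : (v, i) ≠ (w, j)) (h1 : w ≠ ν v)
    (h2 : w ≠ ν.symm v) : ¬ FamC ν 2 ![(v, i), (w, j)] := by
  rintro ⟨I, ⟨hle, -⟩, hI⟩
  obtain ⟨l, hl⟩ := c2_next hI 0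
  have h0 : (![(v, i), (w, j)] 0).1 = v := rfl
  have hl' : (![(v, i), (w, j)] l).1 = v ∨ (![(v, i), (w, j)] l).1 = w := by
    fin_cases l
    · exact Or.inl rfl
    · exact Or.inr rfl
  rw [h0] at hl
  rcases hl' with h | h
  · rw [h] at hl
    exact hl.ne rfl
  · rw [h] at hl
    rcases (hle hl).2 with h3 | h3
    · exact h1 h3
    · apply h2
      rw [h3, Equiv.symm_apply_apply]

/-- (C2c) PROOF. `xc _ v = 2`: `v` has two neighbours in `I ≤ pg ν`; the neighbours of `v` in `pg ν` are in `{ν v, ν.symm v}`, so `I.Adj v (ν.symm v)`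
(a set of cardinality 2 inside the pair is the pair), so `dg I.Adj (ν.symm v) ≥ 1`, but `xc _ (ν.symm v) = 0` because `ν.symm v ∉ {v, ν v}`
(`ν.symm v ≠ v` by `h1`, `ν.symm v ≠ ν v` by `h2`). -/
theorem famC_rank (h1 : ∀ v, ν v ≠ v) (h2 : ∀ v, ν v ≠ ν.symm v) (v : ι) :
    ¬ FamC ν 4 ![(v, false), (v, true), (ν v, false), (ν v, true)] := by
  rintro ⟨I, ⟨hle, -⟩, hI⟩
  have hx : xc ![(v, false), (v, true), (ν v, false), (ν v, true)] v = 2 := by
    unfold xc
    have : univ.filter (fun b : Bool => ∃ i, ![(v, false), (v, true), (ν v, false), (ν v, true)] i = (v, b)) =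
        univ := by
      rw [filter_eq_self]
      rintro (_ | _) -
      · exact ⟨0, rfl⟩
      · exact ⟨1, rfl⟩
    rw [this]
    simp
  have h3 := (c2_two hle ((hI v).trans hx)).2
  have h4 : 0 < xc ![(v, false), (v, true), (ν v, false), (ν v, true)] (ν.symm v) := by
    rw [← hI]
    exact c2_pos h3.symm
  obtain ⟨i, hi⟩ := c2_xc_mem h4
  have hi' : (![(v, false), (v, true), (ν v, false), (ν v, true)] i).1 = v ∨
      (![(v, false), (v, true), (ν v, false), (ν v, true)] i).1 = ν v := by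
    fin_cases i
    · exact Or.inl rfl
    · exact Or.inl rfl
    · exact Or.inr rfl
    · exact Or.inr rfl
  rcases hi' with h | h
  · rw [h] at hi
    exact h3.ne hi
  · rw [h] at hi
    exact h2 v hi

/-- (C2d) PROOF. `xc e w = 2` for all `w` (`e` is onto). So every `w` has two `I`-neighbours inside `{ν w, ν.symm w}`, i.e. `I.Adj w (ν w)` for all `w`; then
`pg ν ≤ I`, so `I = pg ν`, contradiction. -/
theorem famC_all (m : ℕ) (e : Fin m ≃ ι × Bool) : ¬ FamC ν m e := by
  rintro ⟨I, ⟨hle, hne⟩, hI⟩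
  have hx : ∀ w, xc e w = 2 := by
    intro w
    unfold xc
    have : univ.filter (fun b : Bool => ∃ i, e i = (w, b)) = univ := by
      rw [filter_eq_self]
      intro b _
      exact ⟨e.symm (w, b), Equiv.apply_symm_apply _ _⟩
    rw [this]
    simp
  apply hne
  refine le_antisymm hle ?_
  rintro a b ⟨hab, h | h⟩
  · rw [h]
    exact (c2_two hle ((hI a).trans (hx a))).1
  · rw [h]
    exact (c2_two hle ((hI b).trans (hx b))).1.symm

omit [Fintype ι] in
theorem c3_xc {k : ℕ} (e : Fin k → ι × Bool) (w : ι) (s : Finset Bool)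
    (h : ∀ b, (∃ i, e i = (w, b)) ↔ b ∈ s) : xc e w = s.card := by
  unfold xc
  congr 1
  ext b
  rw [mem_filter, h]
  simp

theorem c3_dg (I : SimpleGraph ι) (w : ι) (s : Finset ι) (h : ∀ u, I.Adj w u ↔ u ∈ s) :
    SQF.dg I.Adj w = s.card := by
  unfold SQF.dg
  congr 1
  ext u
  rw [mem_filter, h]
  simp

omit [Fintype ι] [DecidableEq ι] in
theorem c3_nn (h1 : ∀ v, ν v ≠ v) (h2 : ∀ v, ν v ≠ ν.symm v) (v : ι) : ν (ν v) ≠ v := by
  intro h
  apply h2 (ν v)
  rw [Equiv.symm_apply_apply, h]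

omit [Fintype ι] [DecidableEq ι] in
theorem c3_sv (h1 : ∀ v, ν v ≠ v) (v : ι) : ν.symm v ≠ v := by
  intro h
  apply h1 (ν.symm v)
  rw [Equiv.apply_symm_apply, h]

/-- (C2e) PROOF. `I` := the graph with the single edge `s(v, ν v)` (e.g. `SimpleGraph.fromEdgeSet {s(v, ν v)}`). `I ≤ pg ν`; `I ≠ pg ν` because
`pg ν` has the edge `ν v`, `ν (ν v)` (`h1`), which is not in `I` because `ν (ν v) ≠ v` (`h2`: `ν v ≠ ν.symm v`) and `ν (ν v) ≠ ν v`. `dg I.Adj w` is 1 for `w = v`, `w = ν v`
and 0 otherwise, and so is `xc`. -/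
theorem famC_adj (h1 : ∀ v, ν v ≠ v) (h2 : ∀ v, ν v ≠ ν.symm v) (v : ι) (i j : Bool) :
    FamC ν 2 ![(v, i), (ν v, j)] := by
  have hv := h1 v
  have hnn := c3_nn h1 h2 v
  let I : SimpleGraph ι :=
    { Adj := fun a b => (a = v ∧ b = ν v) ∨ (a = ν v ∧ b = v)
      symm := ⟨fun a b h => by
        rcases h with ⟨ha, hb⟩ | ⟨ha, hb⟩
        · exact Or.inr ⟨hb, ha⟩
        · exact Or.inl ⟨hb, ha⟩⟩
      loopless := ⟨fun a h => by
        rcases h with ⟨ha, hb⟩ | ⟨ha, hb⟩
        · exact hv (hb.symm.trans ha)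
        · exact hv (ha.symm.trans hb)⟩ }
  have hadj : ∀ a b, I.Adj a b ↔ (a = v ∧ b = ν v) ∨ (a = ν v ∧ b = v) := fun a b => Iff.rfl
  refine ⟨I, ⟨?_, ?_⟩, ?_⟩
  · intro a b hab
    rcases (hadj a b).1 hab with ⟨ha, hb⟩ | ⟨ha, hb⟩
    · rw [ha, hb]
      exact ⟨hv.symm, Or.inl rfl⟩
    · rw [ha, hb]
      exact ⟨hv, Or.inr rfl⟩
  · intro heq
    have h3 : (pg ν).Adj (ν v) (ν (ν v)) := ⟨(h1 (ν v)).symm, Or.inl rfl⟩
    rw [← heq, hadj] at h3
    rcases h3 with ⟨ha, hb⟩ | ⟨ha, hb⟩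
    · exact hv ha
    · exact hnn hb
  · intro w
    by_cases hw : w = v
    · rw [c3_dg I w {ν v}, c3_xc _ w {i}]
      · simp
      · intro b
        rw [Fin.exists_fin_two, hw]
        simp [hv, hv.symm, eq_comm]
      · intro u
        rw [hadj, hw]
        simp [hv.symm]
    · by_cases hw2 : w = ν v
      · rw [c3_dg I w {v}, c3_xc _ w {j}]
        · simp
        · intro b
          rw [Fin.exists_fin_two, hw2]
          simp [hv.symm, eq_comm]
        · intro u
          rw [hadj, hw2]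
          simp [hv]
      · rw [c3_dg I w ∅, c3_xc _ w ∅]
        · simp
        · intro b
          rw [Fin.exists_fin_two]
          simp [Ne.symm hw, Ne.symm hw2]
        · intro u
          rw [hadj]
          simp [hw, hw2]

/-- (C2f) PROOF. `I` := the graph with the two edges `s(v, ν v)`, `s(v, ν.symm v)`. `I ≤ pg ν`. `I ≠ pg ν`: `pg ν` has the edge `ν v`, `ν (ν v)`, which does not contain `v`
(`ν v ≠ v`; `ν (ν v) ≠ v` by `h2`). `dg I.Adj` is 2 at `v`, 1 at `ν v` and at `ν.symm v`, 0 otherwise; the same for `xc`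
(`v`, `ν v`, `ν.symm v` are pairwise different). -/
theorem famC_ind (h1 : ∀ v, ν v ≠ v) (h2 : ∀ v, ν v ≠ ν.symm v) (v : ι) :
    FamC ν 4 ![(v, false), (v, true), (ν v, false), (ν.symm v, false)] := by
  have hv := h1 v
  have hnn := c3_nn h1 h2 v
  have hsv := c3_sv h1 v
  have hns := h2 v
  let I : SimpleGraph ι :=
    { Adj := fun a b => (a = v ∧ (b = ν v ∨ b = ν.symm v)) ∨ (b = v ∧ (a = ν v ∨ a = ν.symm v))
      symm := ⟨fun a b h => Or.symm h⟩
      loopless := ⟨fun a h => by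
        rcases h with ⟨ha, hb⟩ | ⟨ha, hb⟩
        · rcases hb with hb | hb
          · exact hv (hb.symm.trans ha)
          · exact hsv (hb.symm.trans ha)
        · rcases hb with hb | hb
          · exact hv (hb.symm.trans ha)
          · exact hsv (hb.symm.trans ha)⟩ }
  have hadj : ∀ a b, I.Adj a b ↔ (a = v ∧ (b = ν v ∨ b = ν.symm v)) ∨ (b = v ∧ (a = ν v ∨ a = ν.symm v)) :=
    fun a b => Iff.rfl
  have hle : ∀ u, (u = ν v ∨ u = ν.symm v) → (pg ν).Adj v u := by
    rintro u (rfl | rfl)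
    · exact ⟨hv.symm, Or.inl rfl⟩
    · exact ⟨hsv.symm, Or.inr (by rw [Equiv.apply_symm_apply])⟩
  refine ⟨I, ⟨?_, ?_⟩, ?_⟩
  · intro a b hab
    rcases (hadj a b).1 hab with ⟨ha, hb⟩ | ⟨ha, hb⟩
    · rw [ha]
      exact hle b hb
    · rw [ha]
      exact (hle a hb).symm
  · intro heq
    have h3 : (pg ν).Adj (ν v) (ν (ν v)) := ⟨(h1 (ν v)).symm, Or.inl rfl⟩
    rw [← heq, hadj] at h3
    rcases h3 with ⟨ha, hb⟩ | ⟨ha, hb⟩
    · exact hv ha
    · exact hnn ha
  · intro w
    by_cases hw : w = v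
    · rw [c3_dg I w {ν v, ν.symm v}, c3_xc _ w {false, true}, card_pair hns]
      · simp
      · intro b
        rw [hw]
        rcases b with _ | _
        · simp only [mem_insert, true_or, iff_true]
          exact ⟨0, rfl⟩
        · simp only [mem_insert, mem_singleton, or_true, iff_true]
          exact ⟨1, rfl⟩
      · intro u
        rw [hadj, hw]
        simp [hv.symm, hsv.symm]
    · by_cases hw2 : w = ν v
      · rw [c3_dg I w {v}, c3_xc _ w {false}]
        · simp
        · intro b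
          rw [hw2]
          simp only [Fin.exists_fin_succ, Fin.exists_fin_zero, mem_singleton]
          simp [hv.symm, hns.symm, eq_comm]
        · intro u
          rw [hadj, hw2]
          simp [hv]
      · by_cases hw3 : w = ν.symm v
        · rw [c3_dg I w {v}, c3_xc _ w {false}]
          · simp
          · intro b
            rw [hw3]
            simp only [Fin.exists_fin_succ, Fin.exists_fin_zero, mem_singleton]
            simp [hsv.symm, hns, eq_comm]
          · intro u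
            rw [hadj, hw3]
            simp [hsv]
        · rw [c3_dg I w ∅, c3_xc _ w ∅]
          · simp
          · intro b
            simp only [Fin.exists_fin_succ, Fin.exists_fin_zero]
            simp [Ne.symm hw, Ne.symm hw2, Ne.symm hw3]
          · intro u
            rw [hadj]
            simp [hw, hw2, hw3]

end

/-- (C3) PROOF. Write `m = k + 3`. `SimpleGraph.cycleGraph_adj : (cycleGraph (n + 2)).Adj u v ↔ u - v = 1 ∨ v - u = 1`; with `ν := Equiv.addRight 1`, `pg ν` is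
`u ≠ v ∧ (v = u + 1 ∨ u = v + 1)`; the condition `u ≠ v` is implied (`1 ≠ 0` in `Fin (k + 3)`). `ν v ≠ v`: `1 ≠ 0`; `ν v ≠ ν.symm v`: `v + 1 = v - 1` would give `2 = 0` in `Fin (k + 3)`. -/
theorem cyc_pg {m : ℕ} (hm : 3 ≤ m) : ∃ ν : Equiv.Perm (Fin m), (∀ v, ν v ≠ v) ∧ (∀ v, ν v ≠ ν.symm v) ∧
    SimpleGraph.cycleGraph m = pg ν := by
  obtain ⟨k, rfl⟩ : ∃ k, m = k + 3 := ⟨m - 3, by omega⟩
  have h10 : (1 : Fin (k + 3)) ≠ 0 := by
    intro h
    have h1 := congrArg Fin.val h
    rw [Fin.val_one, Fin.val_zero] at h1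
    exact one_ne_zero h1
  have h20 : (1 : Fin (k + 3)) + 1 ≠ 0 := by
    intro h
    have h1 := congrArg Fin.val h
    rw [Fin.val_add, Fin.val_one, Fin.val_zero, Nat.mod_eq_of_lt (by omega)] at h1
    omega
  have hv : ∀ v : Fin (k + 3), (Equiv.addRight (1 : Fin (k + 3))) v = v + 1 := fun v => rfl
  have hv' : ∀ v : Fin (k + 3), (Equiv.addRight (1 : Fin (k + 3))).symm v = v - 1 := fun v => by
    rw [Equiv.symm_apply_eq, hv, sub_add_cancel]
  refine ⟨Equiv.addRight 1, fun v => ?_, fun v => ?_, ?_⟩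
  · rw [hv]
    intro h
    exact h10 (left_eq_add.1 h.symm)
  · rw [hv, hv']
    intro h
    apply h20
    rw [eq_sub_iff_add_eq, add_assoc] at h
    exact left_eq_add.1 h.symm
  · ext a b
    rw [SimpleGraph.cycleGraph_adj]
    change _ ↔ a ≠ b ∧ (b = a + 1 ∨ a = b + 1)
    constructor
    · rintro (h | h)
      · have h1 : a = b + 1 := by rw [← h, add_sub_cancel]
        refine ⟨fun h2 => h10 ?_, Or.inr h1⟩
        rw [← h, h2, sub_self]
      · have h1 : b = a + 1 := by rw [← h, add_sub_cancel]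
        refine ⟨fun h2 => h10 ?_, Or.inl h1⟩
        rw [← h, h2, sub_self]
    · rintro ⟨-, h | h⟩
      · right
        rw [h, add_sub_cancel_left]
      · left
        rw [h, add_sub_cancel_left]

/-- the determinant does not depend on the instances -/
theorem det_inst {Y K : Type} [CommRing K] (f1 f2 : Fintype Y) (d1 d2 : DecidableEq Y) (M : Matrix Y Y K) :
    @Matrix.det Y d1 f1 K _ M = @Matrix.det Y d2 f2 K _ M := by
  rw [Subsingleton.elim f1 f2, Subsingleton.elim d1 d2]

theorem cycFam_C {ι : Type} [Fintype ι] [DecidableEq ι] {ν : Equiv.Perm ι} (h1 : ∀ v, ν v ≠ v)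
    (h2 : ∀ v, ν v ≠ ν.symm v) : CycFam ν (FamC ν) :=
  ⟨famC_one, famC_adj h1 h2, famC_non, famC_rank h1 h2, famC_ind h1 h2, famC_all⟩

theorem no_lin_cyc {m : ℕ} (hm : 3 ≤ m) (n : Fin m → ℕ) (hn : ∀ w, 2 ≤ n w) (K : Type) [Field K] :
    ¬ LinGadget K (AlCyc m) n := by
  rintro ⟨Z, _, A, π, hπ, hA, hX⟩
  obtain ⟨ν, h1, h2, hg⟩ := cyc_pg hm
  have hτ : Function.Injective (fun q => π (sp n hn q)) := hπ.comp (sp_inj n hn)
  have hF : ∀ (k : ℕ) (e : Fin k → Fin m × Bool), Function.Injective e → (FamC ν k e ↔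
      ((A.submatrix (Sum.elim (fun z : {z // ∀ q, z ≠ π (sp n hn q)} => z.1) (fun q => π (sp n hn q)))
        (Sum.elim (fun z : {z // ∀ q, z ≠ π (sp n hn q)} => z.1) (fun q => π (sp n hn q)))).submatrix
          (Sum.map id e) (Sum.map id e)).det ≠ 0) := by
    intro k e he
    have h3 := hX ((univ.filter (fun q : Fin m × Bool => ∀ i, e i ≠ q)).image (sp n hn))
    rw [ext_compl] at h3
    have h4 : FamC ν k e ↔ ∃ I : SimpleGraph (Fin m), AlCyc m I ∧ ∀ w, SQF.dg I.Adj w = xc e w := by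
      unfold FamC AlCyc
      rw [hg]
    rw [h4, h3, ← sub_equiv A (fun q => π (sp n hn q)) hτ e he
      (fun z => ∀ p ∈ (univ.filter (fun q : Fin m × Bool => ∀ i, e i ≠ q)).image (sp n hn), z ≠ π p)]
    · exact not_congr (Eq.congr (det_inst _ _ _ _ _) rfl)
    intro z
    constructor
    · intro h q hq
      by_contra hcon
      push Not at hcon
      exact h (sp n hn q) (mem_image_of_mem _ (by simpa using hcon)) hq
    · intro h p hp hz
      obtain ⟨q, hq, rfl⟩ := mem_image.1 hp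
      obtain ⟨i, hi⟩ := h q hz
      exact (mem_filter.1 hq).2 i hi
  refine no_lin_schur h1 h2 A hA (fun q => π (sp n hn q)) (cycFam_C h1 h2) ?_ hF
  have h5 := (hF 0 Fin.elim0 (fun a => a.elim0)).1 ⟨⊥, ⟨bot_le, ?_⟩, ?_⟩
  · rw [← sub_equiv A (fun q => π (sp n hn q)) hτ Fin.elim0 (fun a => a.elim0)
      (fun z => ∀ q, z ≠ π (sp n hn q))] at h5
    · intro h6
      exact h5 ((det_inst _ _ _ _ _).trans h6)
    · intro z
      constructor
      · intro h q hq
        exact absurd hq (h q)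
      · intro h q hq
        obtain ⟨i, -⟩ := h q hq
        exact i.elim0
  · intro h
    have hm0 : 0 < m := by omega
    have h6 : (pg ν).Adj ⟨0, hm0⟩ (ν ⟨0, hm0⟩) := ⟨(h1 _).symm, Or.inl rfl⟩
    rw [← h] at h6
    exact h6
  · intro w
    unfold SQF.dg xc
    simp

end SQG
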