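import Mathlib

set_option autoImplicit false

/-! [SQG-Core] a cyclic arrangement of rank one blocks is nonsingular -/

open Finset

namespace SQG

theorem core {ι : Type} [Fintype ι] [DecidableEq ι] (ν : Equiv.Perm ι)
    (h2 : ∀ v, ν v ≠ ν.symm v) {K : Type} [Field K] (S : Matrix (ι × Bool) (ι × Bool) K) (ε : K)
    (hS : ∀ p q, S q p = ε * S p q)
    (h0 : ∀ v i w j, w ≠ ν v → w ≠ ν.symm v → S (v, i) (w, j) = 0)
    (hr : ∀ v, S (v, false) (ν v, false) * S (v, true) (ν v, true) =
      S (v, false) (ν v, true) * S (v, true) (ν v, false))
    (hne : ∀ v i j, S (v, i) (ν v, j) ≠ 0)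
    (hi : ∀ v, S (v, false) (ν v, false) * S (v, true) (ν.symm v, false) ≠
      S (v, false) (ν.symm v, false) * S (v, true) (ν v, false)) : S.det ≠ 0 := by
  intro hdet
  obtain ⟨x, hx0, hx⟩ := Matrix.exists_mulVec_eq_zero_iff.2 hdet
  apply hx0
  have hrow : ∀ v i, (S (v, i) (ν v, false) * x (ν v, false) + S (v, i) (ν v, true) * x (ν v, true)) +
      (S (v, i) (ν.symm v, false) * x (ν.symm v, false) + S (v, i) (ν.symm v, true) * x (ν.symm v, true)) = 0 := by
    intro v i
    have h := congrFun hx (v, i)
    simp only [Matrix.mulVec, dotProduct, Pi.zero_apply] at h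
    rw [Fintype.sum_prod_type] at h
    simp only [Fintype.sum_bool] at h
    rw [← Finset.sum_subset (s₁ := {ν v, ν.symm v}) (Finset.subset_univ _), Finset.sum_pair (h2 v)] at h
    · rw [← h]; ring
    · intro w _ hw
      simp only [mem_insert, mem_singleton, not_or] at hw
      rw [h0 v i w true hw.1 hw.2, h0 v i w false hw.1 hw.2]
      ring
  -- the block at the previous vertex
  have hne' : ∀ v i j, S (v, i) (ν.symm v, j) ≠ 0 := by
    intro v i j h
    have h3 := hS (v, i) (ν.symm v, j)
    rw [h, mul_zero] at h3
    have h4 := hne (ν.symm v) j i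
    rw [Equiv.apply_symm_apply] at h4
    exact h4 h3
  have hr' : ∀ v, S (v, false) (ν.symm v, false) * S (v, true) (ν.symm v, true) =
      S (v, false) (ν.symm v, true) * S (v, true) (ν.symm v, false) := by
    intro v
    have h3 := hr (ν.symm v)
    rw [Equiv.apply_symm_apply] at h3
    have e1 := hS (ν.symm v, false) (v, false)
    have e2 := hS (ν.symm v, true) (v, true)
    have e3 := hS (ν.symm v, true) (v, false)
    have e4 := hS (ν.symm v, false) (v, true)
    rw [e1, e2, e3, e4]
    linear_combination (ε * ε) * h3
  have hab : ∀ v, S (v, false) (ν v, false) * x (ν v, false) + S (v, false) (ν v, true) * x (ν v, true) = 0 ∧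
      S (v, false) (ν.symm v, false) * x (ν.symm v, false) + S (v, false) (ν.symm v, true) * x (ν.symm v, true) = 0 := by
    intro v
    have r0 := hrow v false
    have r1 := hrow v true
    set p := S (v, false) (ν v, false) with hp
    set p1 := S (v, false) (ν v, true) with hp1
    set p' := S (v, true) (ν v, false) with hp'
    set p1' := S (v, true) (ν v, true) with hp1'
    set q := S (v, false) (ν.symm v, false) with hq
    set q1 := S (v, false) (ν.symm v, true) with hq1
    set q' := S (v, true) (ν.symm v, false) with hq'
    set q1' := S (v, true) (ν.symm v, true) with hq1'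
    have ep : p * p1' = p1 * p' := hr v
    have eq' : q * q1' = q1 * q' := hr' v
    have np : p ≠ 0 := hne v false false
    have nq : q ≠ 0 := hne' v false false
    have ni : p * q' ≠ q * p' := hi v
    set α := p * x (ν v, false) + p1 * x (ν v, true) with hα
    set β := q * x (ν.symm v, false) + q1 * x (ν.symm v, true) with hβ
    -- p * (row 1) : p' α q + q' β p = 0
    have h3 : (p * q' - q * p') * α = 0 := by
      have h4 : p * q * (p' * x (ν v, false) + p1' * x (ν v, true) + (q' * x (ν.symm v, false) + q1' * x (ν.symm v, true))) = 0 := by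
        rw [r1, mul_zero]
      have h5 : q * p' * α + p * q' * β = 0 := by
        rw [← h4, hα, hβ]
        linear_combination (-q * x (ν v, true)) * ep + (-p * x (ν.symm v, true)) * eq'
      have h6 : β = - α := by linear_combination r0
      rw [h6] at h5
      linear_combination -h5
    have hα0 : α = 0 := by
      rcases mul_eq_zero.1 h3 with h | h
      · exact absurd (sub_eq_zero.1 h) ni
      · exact h
    refine ⟨hα0, ?_⟩
    rw [hα0, zero_add] at r0
    exact r0
  funext p
  obtain ⟨w, i⟩ := p
  have ha := (hab (ν.symm w)).1
  have hb := (hab (ν w)).2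
  rw [Equiv.apply_symm_apply] at ha
  rw [Equiv.symm_apply_apply] at hb
  have s1 := hS (w, false) (ν.symm w, false)
  have s2 := hS (w, true) (ν.symm w, false)
  have s3 := hS (w, false) (ν w, false)
  have s4 := hS (w, true) (ν w, false)
  have hε : ε ≠ 0 := by
    intro h
    have h5 := hne (ν.symm w) false false
    rw [Equiv.apply_symm_apply] at h5
    have h6 := hS (w, false) (ν.symm w, false)
    rw [h, zero_mul] at h6
    exact h5 h6
  rw [s1, s2] at ha
  rw [s3, s4] at hb
  have ha' : S (w, false) (ν.symm w, false) * x (w, false) + S (w, true) (ν.symm w, false) * x (w, true) = 0 := by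
    have : ε * (S (w, false) (ν.symm w, false) * x (w, false) + S (w, true) (ν.symm w, false) * x (w, true)) = 0 := by
      linear_combination ha
    exact (mul_eq_zero.1 this).resolve_left hε
  have hb' : S (w, false) (ν w, false) * x (w, false) + S (w, true) (ν w, false) * x (w, true) = 0 := by
    have : ε * (S (w, false) (ν w, false) * x (w, false) + S (w, true) (ν w, false) * x (w, true)) = 0 := by
      linear_combination hb
    exact (mul_eq_zero.1 this).resolve_left hε
  have ni := sub_ne_zero.2 (hi w)
  have x0 : (S (w, false) (ν w, false) * S (w, true) (ν.symm w, false) -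
      S (w, false) (ν.symm w, false) * S (w, true) (ν w, false)) * x (w, false) = 0 := by
    linear_combination S (w, true) (ν.symm w, false) * hb' - S (w, true) (ν w, false) * ha'
  have x1 : (S (w, false) (ν w, false) * S (w, true) (ν.symm w, false) -
      S (w, false) (ν.symm w, false) * S (w, true) (ν w, false)) * x (w, true) = 0 := by
    linear_combination S (w, false) (ν w, false) * ha' - S (w, false) (ν.symm w, false) * hb'
  rcases i with _ | _
  · exact (mul_eq_zero.1 x0).resolve_left ni
  · exact (mul_eq_zero.1 x1).resolve_left ni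

end SQG
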