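import Pool.Agent.SQG.S

set_option autoImplicit false
set_option linter.unusedSectionVars false
set_option linter.unusedVariables false

/-! [SQG-D] the domino: no linear gadget if the four outer vertices have at least two outer edges -/

open Finset Matrix
open scoped Classical

namespace SQG

/-- the outer vertices of the domino in the cyclic order used below -/
def kp : Fin 4 → Fin 6 := ![0, 3, 2, 5]

/-- two ports at each outer vertex -/
def spd (n : Fin 6 → ℕ) (h : ∀ v, 2 ≤ n (kp v)) (q : Fin 4 × Bool) : Port n :=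
  ⟨kp q.1, ⟨if q.2 then 1 else 0, by have := h q.1; split <;> omega⟩⟩

/-- (D0) PROOF. `kp` is injective (`decide`); then as for `sp` (first components, then the values 0, 1 of the second components). -/
theorem spd_inj (n : Fin 6 → ℕ) (h : ∀ v, 2 ≤ n (kp v)) : Function.Injective (spd n h) := by
  intro q q' hq
  have hk : Function.Injective kp := by decide
  obtain ⟨v, b⟩ := q
  obtain ⟨v', b'⟩ := q'
  have h1 : v = v' := hk (congrArg Sigma.fst hq)
  subst h1
  have h2 := congrArg (fun p : Port n => (p.2 : ℕ)) hq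
  simp only [spd] at h2
  congr 1
  cases b <;> cases b' <;> simp_all

theorem D_card (n : Fin 6 → ℕ) (h : ∀ v, 2 ≤ n (kp v)) {k : ℕ} (e : Fin k → Fin 4 × Bool)
    (v : Fin 4) :
    ((univ.image (fun i => spd n h (e i))).filter (fun p => p.1 = kp v)).card = xc e v := by
  have hk : Function.Injective kp := by decide
  have h1 : (univ.image (fun i => spd n h (e i))).filter (fun p => p.1 = kp v) =
      (univ.filter (fun b : Bool => ∃ i, e i = (v, b))).image (fun b => spd n h (v, b)) := by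
    ext p
    simp only [mem_filter, mem_image, mem_univ, true_and]
    constructor
    · rintro ⟨⟨i, rfl⟩, hp⟩
      have h2 : (e i).1 = v := hk hp
      refine ⟨(e i).2, ⟨i, ?_⟩, ?_⟩
      · rw [← h2]
      · rw [← h2]
    · rintro ⟨b, ⟨i, hi⟩, rfl⟩
      exact ⟨⟨i, by rw [hi]⟩, rfl⟩
  rw [h1, card_image_of_injective _ (fun b b' hb => by
    have h2 := spd_inj n h hb
    exact congrArg Prod.snd h2)]
  unfold xc
  congr 1

theorem D_card0 (n : Fin 6 → ℕ) (h : ∀ v, 2 ≤ n (kp v)) {k : ℕ} (e : Fin k → Fin 4 × Bool)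
    (w : Fin 6) (hw : ∀ v, kp v ≠ w) :
    ((univ.image (fun i => spd n h (e i))).filter (fun p => p.1 = w)).card = 0 := by
  rw [card_eq_zero, filter_eq_empty_iff]
  intro p hp
  obtain ⟨i, -, rfl⟩ := mem_image.1 hp
  exact hw _

/-- (D1) PROOF. The number of elements of the image at `w`: for `w = kp v` it is `xc e v` (the elements of the image at `kp v` are the images of the `b : Bool` with
`(v, b)` in the range of `e` under the injective map `b ↦ spd n h (v, b)`), for `w = 1` and `w = 4` it is 0 (`kp v ≠ 1, 4`). Every `w : Fin 6` is `1`, `4` or some `kp v`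
(`fin_cases`/`decide`). Swap the order of the summands / `omega` is not even needed. -/
theorem ext_dom (n : Fin 6 → ℕ) (h : ∀ v, 2 ≤ n (kp v)) {k : ℕ} (e : Fin k → Fin 4 × Bool) :
    Ext AlDom n (univ.image (fun i => spd n h (e i))) ↔
      ∃ I : SimpleGraph (Fin 6), AlDom I ∧ (∀ v, SQF.dg I.Adj (kp v) + xc e v = 2) ∧
        SQF.dg I.Adj 1 = 2 ∧ SQF.dg I.Adj 4 = 2 := by
  have k1 : ∀ v, kp v ≠ 1 := by decide
  have k4 : ∀ v, kp v ≠ 4 := by decide
  have kw : ∀ w : Fin 6, w = 1 ∨ w = 4 ∨ ∃ v, kp v = w := by decide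
  constructor
  · rintro ⟨I, hI, hd⟩
    refine ⟨I, hI, fun v => ?_, ?_, ?_⟩
    · rw [← D_card n h e v]
      convert hd (kp v)
    · have h1 := hd 1
      have h2 := D_card0 n h e 1 k1
      rw [← h1, left_eq_add]
      convert h2
    · have h1 := hd 4
      have h2 := D_card0 n h e 4 k4
      rw [← h1, left_eq_add]
      convert h2
  · rintro ⟨I, hI, hd, hd1, hd4⟩
    refine ⟨I, hI, fun w => ?_⟩
    rcases kw w with rfl | rfl | ⟨v, rfl⟩
    · rw [hd1, Nat.add_eq_left]
      convert D_card0 n h e 1 k1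
    · rw [hd4, Nat.add_eq_left]
      convert D_card0 n h e 4 k4
    · rw [← hd v, ← D_card n h e v]

/-- the family of the domino -/
def FamD (k : ℕ) (e : Fin k → Fin 4 × Bool) : Prop :=
  ∃ I : SimpleGraph (Fin 6), AlDom I ∧ (∀ v, SQF.dg I.Adj (kp v) + xc e v = 2) ∧
    SQF.dg I.Adj 1 = 2 ∧ SQF.dg I.Adj 4 = 2

/-- indicator of an edge -/
noncomputable def ad (I : SimpleGraph (Fin 6)) (a b : Fin 6) : ℕ := if I.Adj a b then 1 else 0

/-- the adjacency matrix of the domino -/
def D_A (a b : Fin 6) : Bool :=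
  ![![false, true, false, true, false, false], ![true, false, true, false, true, false],
    ![false, true, false, false, false, true], ![true, false, false, false, true, false],
    ![false, true, false, true, false, true], ![false, false, true, false, true, false]] a b

/-- the number of an edge -/
def D_E (a b : Fin 6) : Fin 7 :=
  ![![0, 0, 0, 4, 0, 0], ![0, 0, 1, 0, 5, 0], ![0, 1, 0, 0, 0, 6], ![4, 0, 0, 0, 2, 0],
    ![0, 5, 0, 2, 0, 3], ![0, 0, 6, 0, 3, 0]] a b

theorem D_adj (a b : Fin 6) : domino.Adj a b ↔ D_A a b = true := by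
  unfold domino
  simp only [SimpleGraph.fromEdgeSet_adj, Set.mem_insert_iff, Set.mem_singleton_iff]
  revert a b
  decide

theorem D_zero {I : SimpleGraph (Fin 6)} (hI : I ≤ domino) (a b : Fin 6) (h : D_A a b = false) :
    ad I a b = 0 := by
  unfold ad
  rw [if_neg]
  intro h1
  have h2 := (D_adj a b).1 (hI h1)
  rw [h] at h2
  exact Bool.false_ne_true h2

theorem D_symm (I : SimpleGraph (Fin 6)) (a b : Fin 6) : ad I a b = ad I b a := by
  unfold ad
  rw [SimpleGraph.adj_comm]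

theorem D_dg (I : SimpleGraph (Fin 6)) (a : Fin 6) : SQF.dg I.Adj a =
    ad I a 0 + ad I a 1 + ad I a 2 + ad I a 3 + ad I a 4 + ad I a 5 := by
  unfold SQF.dg
  rw [card_filter, Fin.sum_univ_six]
  unfold ad
  congr!

/-- (D2) PROOF. `dg I.Adj w` is the sum of `ad I w u` over the six `u` (`Finset.card_filter`, `Fin.sum_univ_six`), and `ad I w u = 0` unless `s(w, u)` is an edge of
the domino (`I ≤ domino`; `domino.Adj a b` is decidable after `unfold domino; simp [SimpleGraph.fromEdgeSet_adj]`), `ad I a b = ad I b a`. -/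
theorem dg_dom {I : SimpleGraph (Fin 6)} (hI : I ≤ domino) :
    SQF.dg I.Adj 0 = ad I 0 1 + ad I 0 3 ∧ SQF.dg I.Adj 1 = ad I 0 1 + ad I 1 2 + ad I 1 4 ∧
    SQF.dg I.Adj 2 = ad I 1 2 + ad I 2 5 ∧ SQF.dg I.Adj 3 = ad I 0 3 + ad I 3 4 ∧
    SQF.dg I.Adj 4 = ad I 3 4 + ad I 1 4 + ad I 4 5 ∧ SQF.dg I.Adj 5 = ad I 2 5 + ad I 4 5 := by
  have z := D_zero hI
  have s := D_symm I
  refine ⟨?_, ?_, ?_, ?_, ?_, ?_⟩
  · rw [D_dg, z 0 0 (by decide), z 0 2 (by decide), z 0 4 (by decide), z 0 5 (by decide)]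
    ring
  · rw [D_dg, z 1 1 (by decide), z 1 3 (by decide), z 1 5 (by decide), s 1 0]
    ring
  · rw [D_dg, z 2 0 (by decide), z 2 2 (by decide), z 2 3 (by decide), z 2 4 (by decide), s 2 1]
    ring
  · rw [D_dg, z 3 1 (by decide), z 3 2 (by decide), z 3 3 (by decide), z 3 5 (by decide), s 3 0]
    ring
  · rw [D_dg, z 4 0 (by decide), z 4 2 (by decide), z 4 4 (by decide), s 4 1, s 4 3]
    ring
  · rw [D_dg, z 5 0 (by decide), z 5 1 (by decide), z 5 3 (by decide), z 5 5 (by decide), s 5 2,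
      s 5 4]
    ring

theorem D_sq : ∀ a b c d : Fin 6, a ≠ c → b ≠ d → D_A a b = true → D_A b c = true → D_A c d = true →
    D_A d a = true → (∀ k ∈ ({0, 5, 2, 4} : Finset (Fin 7)), k = D_E a b ∨ k = D_E b c ∨ k = D_E c d ∨
      k = D_E d a) ∨ (∀ k ∈ ({1, 6, 3, 5} : Finset (Fin 7)), k = D_E a b ∨ k = D_E b c ∨
      k = D_E c d ∨ k = D_E d a) := by
  decide

/-- the graph with the edges selected by `t` -/
def D_I (t : Fin 7 → Bool) : SimpleGraph (Fin 6) where
  Adj a b := D_A a b = true ∧ t (D_E a b) = true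
  symm := ⟨fun a b h => by
    have h1 : ∀ a b : Fin 6, D_A a b = D_A b a ∧ D_E a b = D_E b a := by decide
    rw [← (h1 a b).1, ← (h1 a b).2]
    exact h⟩
  loopless := ⟨fun a h => by
    have h1 : ∀ a : Fin 6, D_A a a = false := by decide
    rw [h1] at h
    exact Bool.false_ne_true h.1⟩

theorem D_ad (t : Fin 7 → Bool) (a b : Fin 6) (k : Fin 7) (h : D_A a b = true) (hk : D_E a b = k) :
    ad (D_I t) a b = (t k).toNat := by
  unfold ad
  have h1 : (D_I t).Adj a b ↔ t k = true := by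
    change (D_A a b = true ∧ t (D_E a b) = true) ↔ _
    rw [h, hk]
    simp
  by_cases h2 : t k = true
  · rw [if_pos (h1.2 h2), h2]
    rfl
  · rw [if_neg (fun h3 => h2 (h1.1 h3))]
    rw [Bool.not_eq_true] at h2
    rw [h2]
    rfl

/-- (D3) PROOF. Let `I` be the graph with the edges of the domino selected by `t`: e.g. `fromEdgeSet` of the set of the edges `s(a, b)` of the domino with `t = true`. `ad I 0 1` is 1
iff `t 0` etc. The hypothesis says that neither of the two 4-cycles of the domino is fully selected; every 4-cycle `a b c d` of `domino` (`a ≠ c`, `b ≠ d`) is one of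
the two up to rotation and reflection (finite check: `decide` over `Fin 6`, or `fin_cases`), so `I` has no 4-cycle. -/
theorem exists_dom (t : Fin 7 → Bool) (h1 : ¬ (t 0 ∧ t 5 ∧ t 2 ∧ t 4)) (h2 : ¬ (t 1 ∧ t 6 ∧ t 3 ∧ t 5)) :
    ∃ I : SimpleGraph (Fin 6), AlDom I ∧ ad I 0 1 = (t 0).toNat ∧ ad I 1 2 = (t 1).toNat ∧
      ad I 3 4 = (t 2).toNat ∧ ad I 4 5 = (t 3).toNat ∧ ad I 0 3 = (t 4).toNat ∧ ad I 1 4 = (t 5).toNat ∧
      ad I 2 5 = (t 6).toNat := by
  refine ⟨D_I t, ⟨fun a b h => (D_adj a b).2 h.1, ?_⟩, D_ad t 0 1 0 rfl rfl, D_ad t 1 2 1 rfl rfl,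
    D_ad t 3 4 2 rfl rfl, D_ad t 4 5 3 rfl rfl, D_ad t 0 3 4 rfl rfl, D_ad t 1 4 5 rfl rfl,
    D_ad t 2 5 6 rfl rfl⟩
  rintro a b c d hac hbd ⟨hab, hbc, hcd, hda⟩
  have key : ∀ k, (k = D_E a b ∨ k = D_E b c ∨ k = D_E c d ∨ k = D_E d a) → t k = true := by
    rintro k (rfl | rfl | rfl | rfl)
    · exact hab.2
    · exact hbc.2
    · exact hcd.2
    · exact hda.2
  rcases D_sq a b c d hac hbd hab.1 hbc.1 hcd.1 hda.1 with h | h
  · exact h1 ⟨key 0 (h 0 (by decide)), key 5 (h 5 (by decide)), key 2 (h 2 (by decide)),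
      key 4 (h 4 (by decide))⟩
  · exact h2 ⟨key 1 (h 1 (by decide)), key 6 (h 6 (by decide)), key 3 (h 3 (by decide)),
      key 5 (h 5 (by decide))⟩

theorem D_le (I : SimpleGraph (Fin 6)) (a b : Fin 6) : ad I a b ≤ 1 := by
  unfold ad
  split_ifs <;> omega

theorem D_one {I : SimpleGraph (Fin 6)} {a b : Fin 6} (h : ad I a b = 1) : I.Adj a b := by
  by_contra h1
  unfold ad at h
  rw [if_neg h1] at h
  exact zero_ne_one h

/-- (D4) PROOF. If all four edges are present then `0 1 4 3` (resp. `1 2 5 4`) is a 4-cycle of `I`, against `AlDom`. -/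
theorem no_sq {I : SimpleGraph (Fin 6)} (hI : AlDom I) :
    ad I 0 1 + ad I 1 4 + ad I 3 4 + ad I 0 3 ≤ 3 ∧ ad I 1 2 + ad I 2 5 + ad I 4 5 + ad I 1 4 ≤ 3 := by
  have l := D_le I
  constructor
  · by_contra hc
    have a1 := l 0 1
    have a2 := l 1 4
    have a3 := l 3 4
    have a4 := l 0 3
    exact hI.2 0 1 4 3 (by decide) (by decide) ⟨D_one (by omega), D_one (by omega),
      (D_one (by omega) : I.Adj 3 4).symm, (D_one (by omega) : I.Adj 0 3).symm⟩
  · by_contra hc
    have a1 := l 1 2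
    have a2 := l 2 5
    have a3 := l 4 5
    have a4 := l 1 4
    exact hI.2 1 2 5 4 (by decide) (by decide) ⟨D_one (by omega), D_one (by omega),
      (D_one (by omega) : I.Adj 4 5).symm, (D_one (by omega) : I.Adj 1 4).symm⟩

theorem D_toNat (I : SimpleGraph (Fin 6)) (a b : Fin 6) :
    (decide (I.Adj a b)).toNat = ad I a b := by
  unfold ad
  by_cases h : I.Adj a b
  · rw [if_pos h, decide_eq_true h]
    rfl
  · rw [if_neg h, decide_eq_false h]
    rfl

theorem D_tt {b : Bool} (h : b = true) : b.toNat = 1 := by rw [h]; rfl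

/-- (D5) PROOF. By (D2), (D3), (D4) the existence of `I` is equivalent to the existence of `t : Fin 7 → Bool` (edges in the order 01, 12, 34, 45, 03, 14, 25)
with the degree conditions and without the two squares. -/
theorem famD_iff (k : ℕ) (e : Fin k → Fin 4 × Bool) : FamD k e ↔ ∃ t : Fin 7 → Bool,
    (t 0).toNat + (t 4).toNat + xc e 0 = 2 ∧ (t 4).toNat + (t 2).toNat + xc e 1 = 2 ∧
    (t 1).toNat + (t 6).toNat + xc e 2 = 2 ∧ (t 6).toNat + (t 3).toNat + xc e 3 = 2 ∧
    (t 0).toNat + (t 1).toNat + (t 5).toNat = 2 ∧ (t 2).toNat + (t 5).toNat + (t 3).toNat = 2 ∧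
    ¬ (t 0 ∧ t 5 ∧ t 2 ∧ t 4) ∧ ¬ (t 1 ∧ t 6 ∧ t 3 ∧ t 5) := by
  have e0 : kp 0 = 0 := rfl
  have e1 : kp 1 = 3 := rfl
  have e2 : kp 2 = 2 := rfl
  have e3 : kp 3 = 5 := rfl
  constructor
  · rintro ⟨I, hI, hd, hd1, hd4⟩
    obtain ⟨g0, g1, g2, g3, g4, g5⟩ := dg_dom hI.1
    obtain ⟨s1, s2⟩ := no_sq hI
    have w0 := hd 0
    have w1 := hd 1
    have w2 := hd 2
    have w3 := hd 3
    rw [e0, g0] at w0
    rw [e1, g3] at w1
    rw [e2, g2] at w2
    rw [e3, g5] at w3
    rw [g1] at hd1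
    rw [g4] at hd4
    obtain ⟨t, ht⟩ : ∃ t : Fin 7 → Bool, (t 0).toNat = ad I 0 1 ∧ (t 1).toNat = ad I 1 2 ∧
        (t 2).toNat = ad I 3 4 ∧ (t 3).toNat = ad I 4 5 ∧ (t 4).toNat = ad I 0 3 ∧
        (t 5).toNat = ad I 1 4 ∧ (t 6).toNat = ad I 2 5 :=
      ⟨![decide (I.Adj 0 1), decide (I.Adj 1 2), decide (I.Adj 3 4), decide (I.Adj 4 5),
        decide (I.Adj 0 3), decide (I.Adj 1 4), decide (I.Adj 2 5)], D_toNat I 0 1, D_toNat I 1 2,
        D_toNat I 3 4, D_toNat I 4 5, D_toNat I 0 3, D_toNat I 1 4, D_toNat I 2 5⟩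
    obtain ⟨t0, t1, t2, t3, t4, t5, t6⟩ := ht
    refine ⟨t, by omega, by omega, by omega, by omega, by omega, by omega, ?_, ?_⟩
    · rintro ⟨u1, u2, u3, u4⟩
      have v1 := D_tt u1
      have v2 := D_tt u2
      have v3 := D_tt u3
      have v4 := D_tt u4
      omega
    · rintro ⟨u1, u2, u3, u4⟩
      have v1 := D_tt u1
      have v2 := D_tt u2
      have v3 := D_tt u3
      have v4 := D_tt u4
      omega
  · rintro ⟨t, c0, c1, c2, c3, c4, c5, h1, h2⟩
    obtain ⟨I, hI, t0, t1, t2, t3, t4, t5, t6⟩ := exists_dom t h1 h2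
    obtain ⟨g0, g1, g2, g3, g4, g5⟩ := dg_dom hI.1
    refine ⟨I, hI, ?_, by omega, by omega⟩
    intro v
    fin_cases v
    · change SQF.dg I.Adj 0 + xc e 0 = 2
      omega
    · change SQF.dg I.Adj 3 + xc e 1 = 2
      omega
    · change SQF.dg I.Adj 2 + xc e 2 = 2
      omega
    · change SQF.dg I.Adj 5 + xc e 3 = 2
      omega

/-- the degree conditions of the domino for the numbers `x v` of used ports -/
def d6_P (x : Fin 4 → ℕ) : Prop := ∃ t0 t1 t2 t3 t4 t5 t6 : Bool,
    t0.toNat + t4.toNat + x 0 = 2 ∧ t4.toNat + t2.toNat + x 1 = 2 ∧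
    t1.toNat + t6.toNat + x 2 = 2 ∧ t6.toNat + t3.toNat + x 3 = 2 ∧
    t0.toNat + t1.toNat + t5.toNat = 2 ∧ t2.toNat + t5.toNat + t3.toNat = 2 ∧
    ¬ (t0 ∧ t5 ∧ t2 ∧ t4) ∧ ¬ (t1 ∧ t6 ∧ t3 ∧ t5)

instance d6_dec (x : Fin 4 → ℕ) : Decidable (d6_P x) := by
  unfold d6_P
  infer_instance

theorem d6_iff (k : ℕ) (e : Fin k → Fin 4 × Bool) : FamD k e ↔ d6_P (xc e) := by
  rw [famD_iff]
  constructor
  · rintro ⟨t, h⟩
    exact ⟨t 0, t 1, t 2, t 3, t 4, t 5, t 6, h⟩
  · rintro ⟨t0, t1, t2, t3, t4, t5, t6, h⟩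
    exact ⟨![t0, t1, t2, t3, t4, t5, t6], h⟩

theorem d6_all (m : ℕ) (e : Fin m ≃ Fin 4 × Bool) : xc (e : Fin m → Fin 4 × Bool) = fun _ => 2 := by
  funext w
  unfold xc
  rw [Finset.filter_true_of_mem]
  · rfl
  · intro b _
    exact ⟨e.symm (w, b), e.apply_symm_apply _⟩

theorem d6_one : ∀ p : Fin 4 × Bool, ¬ d6_P (xc ![p]) := by decide +kernel

theorem d6_adj : ∀ (v : Fin 4) (i j : Bool), d6_P (xc ![(v, i), (v + 1, j)]) := by decide +kernel

theorem d6_non : ∀ (v : Fin 4) (i : Bool) (w : Fin 4) (j : Bool), (v, i) ≠ (w, j) → w ≠ v + 1 → w ≠ v + -1 →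
    ¬ d6_P (xc ![(v, i), (w, j)]) := by decide +kernel

theorem d6_rank : ∀ v : Fin 4, ¬ d6_P (xc ![(v, false), (v, true), (v + 1, false), (v + 1, true)]) := by
  decide +kernel

theorem d6_ind : ∀ v : Fin 4, d6_P (xc ![(v, false), (v, true), (v + 1, false), (v + -1, false)]) := by
  decide +kernel

theorem d6_two : ¬ d6_P (fun _ => 2) := by decide +kernel

/-- (D6) PROOF. `CycFam` for `ν := Equiv.addRight 1` on `Fin 4`. By (D5) every field is a statement about the numbers `xc e 0, ..., xc e 3` of a concrete `e`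
(`xc ![..] w` is computed by `decide`/`simp [xc]`; for `e : Fin m ≃ Fin 4 × Bool` all are 2) and `t : Fin 7 → Bool`, decided by `decide`/`omega`. The indices are quantified:
`fin_cases v`, `cases i`, `cases j`. -/
theorem cycFam_D : CycFam (Equiv.addRight (1 : Fin 4)) FamD := by
  refine ⟨?_, ?_, ?_, ?_, ?_, ?_⟩
  · intro p
    rw [d6_iff]
    exact d6_one p
  · intro v i j
    rw [d6_iff]
    exact d6_adj v i j
  · intro v i w j h1 h2 h3
    rw [d6_iff]
    exact d6_non v i w j h1 h2 h3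
  · intro v
    rw [d6_iff]
    exact d6_rank v
  · intro v
    rw [d6_iff]
    exact d6_ind v
  · intro m e
    rw [d6_iff, d6_all]
    exact d6_two

theorem d7_det {Z K : Type} [Field K] (A : Matrix Z Z K) (P Q : Z → Prop) (h : ∀ z, P z ↔ Q z)
    (f1 : Fintype {z // P z}) (d1 : DecidableEq {z // P z}) (f2 : Fintype {z // Q z})
    (d2 : DecidableEq {z // Q z}) :
    @Matrix.det {z // P z} d1 f1 K _ (A.submatrix (fun z : {z // P z} => z.1) (fun z : {z // P z} => z.1)) =
      @Matrix.det {z // Q z} d2 f2 K _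
        (A.submatrix (fun z : {z // Q z} => z.1) (fun z : {z // Q z} => z.1)) := by
  obtain rfl : P = Q := funext fun z => propext (h z)
  obtain rfl : f1 = f2 := Subsingleton.elim _ _
  obtain rfl : d1 = d2 := Subsingleton.elim _ _
  rfl

theorem d7_all {Z K : Type} [Field K] (A : Matrix Z Z K) (P : Z → Prop) (h : ∀ z, P z)
    (f1 : Fintype {z // P z}) (d1 : DecidableEq {z // P z}) (f2 : Fintype Z) (d2 : DecidableEq Z) :
    @Matrix.det {z // P z} d1 f1 K _ (A.submatrix (fun z : {z // P z} => z.1) (fun z : {z // P z} => z.1)) =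
      @Matrix.det Z d2 f2 K _ A :=
  Matrix.det_submatrix_equiv_self (Equiv.subtypeUnivEquiv h) A

theorem d7_zero (e : Fin 0 → Fin 4 × Bool) : FamD 0 e := by
  rw [famD_iff]
  have hx : ∀ v, xc e v = 0 := by
    intro v
    unfold xc
    rw [card_eq_zero, filter_eq_empty_iff]
    rintro b - ⟨i, -⟩
    exact i.elim0
  refine ⟨![true, true, true, true, true, false, true], ?_, ?_, ?_, ?_, ?_, ?_, ?_, ?_⟩
  · rw [hx]; rfl
  · rw [hx]; rfl
  · rw [hx]; rfl
  · rw [hx]; rfl
  · rfl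
  · rfl
  · rintro ⟨-, h, -⟩
    exact Bool.noConfusion h
  · rintro ⟨-, -, -, h⟩
    exact Bool.noConfusion h

/-- (D7) PROOF. As `no_lin_cyc` in C.lean. `τ q := π (spd n h q)`, injective. `hX ∅`: `X = ∅` is extendable (`ext_dom` with `k = 0`, `famD_iff` with `t = (true, true, true, true, true, false, true)`: the
6-cycle), so the determinant of `A` restricted to `{z // ∀ p ∈ ∅, ..}` (all of `Z`, `det_submatrix_equiv_self`) is nonzero, i.e. `A.det ≠ 0`. For injective `e`: `hX (univ.image (fun i => spd n h (e i)))`,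
the predicate `∀ p ∈ image, z ≠ π p` is `∀ i, z ≠ τ (e i)` (`Finset.forall_mem_image`); the determinants agree (`convert`, subsingleton instances; `det_submatrix_equiv_self` with `Equiv.subtypeEquivRight`).
`no_lin_jacobi` with `cycFam_D`. (`ν v ≠ v`, `ν v ≠ ν.symm v` on `Fin 4`: `decide`.) -/
theorem no_lin_dom (n : Fin 6 → ℕ) (h : ∀ v, 2 ≤ n (kp v)) (K : Type) [Field K] : ¬ LinGadget K AlDom n := by
  rintro ⟨Z, _, A, π, hπ, hA, hX⟩
  have hτ : Function.Injective (fun q => π (spd n h q)) := hπ.comp (spd_inj n h)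
  have hF : ∀ (k : ℕ) (e : Fin k → Fin 4 × Bool), Function.Injective e → (FamD k e ↔
      (A.submatrix (fun z : {z // ∀ i, z ≠ π (spd n h (e i))} => z.1)
        (fun z : {z // ∀ i, z ≠ π (spd n h (e i))} => z.1)).det ≠ 0) := by
    intro k e he
    have h3 := hX (univ.image (fun i => spd n h (e i)))
    rw [ext_dom] at h3
    refine h3.trans (Iff.of_eq (congrArg (fun x => x ≠ 0) (d7_det A _ _ ?_ _ _ _ _)))
    intro z
    constructor
    · intro h5 i
      exact h5 _ (mem_image_of_mem _ (mem_univ i))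
    · intro h5 p hp
      obtain ⟨i, -, rfl⟩ := mem_image.1 hp
      exact h5 i
  have h0 : A.det ≠ 0 := by
    have h4 := (hF 0 Fin.elim0 (fun a => a.elim0)).1 (d7_zero _)
    have h5 := d7_all A (fun z => ∀ i : Fin 0, z ≠ π (spd n h (Fin.elim0 i))) (fun z i => i.elim0)
      inferInstance inferInstance inferInstance inferInstance
    intro h6
    apply h4
    exact h5.trans h6
  exact no_lin_jacobi (ν := Equiv.addRight (1 : Fin 4)) (by decide) (by decide) A hA
    (fun q => π (spd n h q)) hτ cycFam_D h0 hF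

end SQG
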