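import Pool.Agent.SQG.Bar
import Pool.Agent.SQF.P1

set_option autoImplicit false

/-! [SQG] gadgets for forbidden cycles: definitions.

A cluster is a graph on `U`; the vertex `w` has `n w` edges leaving the cluster (the ports at `w`). A set `X` of
outer edges is extendable if the cluster has an allowed subgraph `I` which together with `X` gives degree 2 at
every vertex of the cluster. -/

open Finset Matrix

namespace SQG

/-- the ports: `n w` outer edges at `w` -/
abbrev Port {U : Type} (n : U → ℕ) : Type := Σ w : U, Fin (n w)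

/-- the set `X` of outer edges can be extended inside the cluster by a subgraph in `Al` to degree 2 -/
def Ext {U : Type} [Fintype U] [DecidableEq U] (Al : SimpleGraph U → Prop) (n : U → ℕ)
    (X : Finset (Port n)) : Prop :=
  ∃ I : SimpleGraph U, Al I ∧ ∀ w, SQF.dg I.Adj w + (X.filter (fun p => p.1 = w)).card = 2

/-- a matching gadget: a graph `H` containing the ports as vertices, such that `X` is extendable iff `H` minus
the ports in `X` has a perfect matching -/
def MatchGadget {U : Type} [Fintype U] [DecidableEq U] (Al : SimpleGraph U → Prop) (n : U → ℕ) : Prop :=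
  ∃ (Z : Type) (_ : Fintype Z) (H : SimpleGraph Z) (π : Port n → Z), Function.Injective π ∧
    ∀ X : Finset (Port n), Ext Al n X ↔
      ∃ M : (H.induce {z | ∀ p ∈ X, z ≠ π p}).Subgraph, M.IsPerfectMatching

open scoped Classical in
/-- a linear gadget over the field `K`: a symmetric or skew-symmetric matrix, the ports are some of its indices,
`X` is extendable iff the principal submatrix without the ports in `X` is nonsingular -/
def LinGadget (K : Type) [Field K] {U : Type} [Fintype U] [DecidableEq U] (Al : SimpleGraph U → Prop)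
    (n : U → ℕ) : Prop :=
  ∃ (Z : Type) (_ : Fintype Z) (A : Matrix Z Z K) (π : Port n → Z), Function.Injective π ∧
    (Aᵀ = A ∨ Aᵀ = -A) ∧ ∀ X : Finset (Port n), Ext Al n X ↔
      (A.submatrix (fun z : {z : Z // ∀ p ∈ X, z ≠ π p} => z.1)
        (fun z : {z : Z // ∀ p ∈ X, z ≠ π p} => z.1)).det ≠ 0

/-- the cycle with `m` vertices, its proper subgraphs are allowed -/
def AlCyc (m : ℕ) (I : SimpleGraph (Fin m)) : Prop :=
  I ≤ SimpleGraph.cycleGraph m ∧ I ≠ SimpleGraph.cycleGraph m

/-- the domino: two 4-cycles `0 1 4 3` and `1 2 5 4` sharing exactly the edge `1 4` -/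
def domino : SimpleGraph (Fin 6) :=
  SimpleGraph.fromEdgeSet {s(0, 1), s(1, 2), s(3, 4), s(4, 5), s(0, 3), s(1, 4), s(2, 5)}

/-- the subgraphs of the domino without 4-cycles are allowed -/
def AlDom (I : SimpleGraph (Fin 6)) : Prop :=
  I ≤ domino ∧ ∀ a b c d, a ≠ c → b ≠ d → ¬ (I.Adj a b ∧ I.Adj b c ∧ I.Adj c d ∧ I.Adj d a)

/-- number of `b` such that `(w, b)` is in the range of `e` -/
def xc {ι : Type} [DecidableEq ι] {k : ℕ} (e : Fin k → ι × Bool) (w : ι) : ℕ :=
  (univ.filter (fun b : Bool => ∃ i, e i = (w, b))).card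

/-- the graph of a permutation -/
def pg {ι : Type} (ν : Equiv.Perm ι) : SimpleGraph ι where
  Adj v w := v ≠ w ∧ (w = ν v ∨ v = ν w)
  symm := ⟨fun v w h => ⟨h.1.symm, h.2.symm⟩⟩
  loopless := ⟨fun v h => h.1 rfl⟩

end SQG
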