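import Pool.Agent.SQG.Core

set_option autoImplicit false

/-! [SQG-Mat] minors of symmetric and skew-symmetric matrices -/

open Finset Matrix

namespace SQG

section

variable {K : Type} [Field K] {U P : Type} [Fintype U] [DecidableEq U] [Fintype P] [DecidableEq P]

/-- Schur complement -/
theorem schur (M : Matrix (U ⊕ P) (U ⊕ P) K) (ε : K) (hε : ε * ε = 1) (hM : ∀ p q, M q p = ε * M p q)
    (h0 : (M.submatrix Sum.inl Sum.inl).det ≠ 0) :
    ∃ S : Matrix P P K, (∀ p q, S q p = ε * S p q) ∧ ∀ (m : ℕ) (e : Fin m → P),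
      ((M.submatrix (Sum.map id e) (Sum.map id e)).det ≠ 0 ↔ (S.submatrix e e).det ≠ 0) := by
  set A := M.submatrix Sum.inl Sum.inl with hA
  set B : Matrix U P K := M.submatrix Sum.inl Sum.inr with hB
  set C : Matrix P U K := M.submatrix Sum.inr Sum.inl with hC
  set D : Matrix P P K := M.submatrix Sum.inr Sum.inr with hD
  have hAu : IsUnit A.det := isUnit_iff_ne_zero.2 h0
  refine ⟨D - C * A⁻¹ * B, ?_, ?_⟩
  · have tA : Aᵀ = ε • A := by
      ext i j; simp [hA, hM (Sum.inl i) (Sum.inl j)]
    have tB : Bᵀ = ε • C := by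
      ext i j
      simp only [hB, hC, transpose_apply, submatrix_apply, Matrix.smul_apply, smul_eq_mul]
      rw [hM (Sum.inr i) (Sum.inl j)]
    have tC : Cᵀ = ε • B := by
      ext i j
      simp only [hB, hC, transpose_apply, submatrix_apply, Matrix.smul_apply, smul_eq_mul]
      rw [hM (Sum.inl i) (Sum.inr j)]
    have tD : Dᵀ = ε • D := by
      ext i j; simp [hD, hM (Sum.inr i) (Sum.inr j)]
    have tAi : (A⁻¹)ᵀ = ε • A⁻¹ := by
      rw [transpose_nonsing_inv, tA]
      apply inv_eq_left_inv
      rw [smul_mul_smul_comm, hε, one_smul, nonsing_inv_mul A hAu]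
    have key : (D - C * A⁻¹ * B)ᵀ = ε • (D - C * A⁻¹ * B) := by
      rw [transpose_sub, transpose_mul, transpose_mul, tAi, tB, tC, tD, smul_sub]
      congr 1
      simp only [Matrix.smul_mul, Matrix.mul_smul, smul_smul, hε, one_mul, mul_one, Matrix.mul_assoc]
    intro p q
    have h := congrFun (congrFun key p) q
    simpa using h
  · intro m e
    have e1 : M.submatrix (Sum.map id e) (Sum.map id e) =
        fromBlocks A (B.submatrix id e) (C.submatrix e id) (D.submatrix e e) := by
      ext i j
      rcases i with i | i <;> rcases j with j | j <;> rfl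
    have : Invertible A := invertibleOfIsUnitDet A hAu
    rw [e1, det_fromBlocks₁₁]
    have e2 : D.submatrix e e - C.submatrix e id * ⅟A * B.submatrix id e =
        (D - C * A⁻¹ * B).submatrix e e := by
      rw [invOf_eq_nonsing_inv]
      ext i j
      simp [Matrix.mul_apply]
    rw [e2]
    constructor
    · intro h h'
      exact h (by rw [h', mul_zero])
    · intro h
      exact mul_ne_zero h0 h

end

section

variable {K : Type} [Field K] {W₁ W₂ : Type} [Fintype W₁] [DecidableEq W₁] [Fintype W₂] [DecidableEq W₂]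

/-- complementary minors -/
theorem jacobi (N : Matrix (W₁ ⊕ W₂) (W₁ ⊕ W₂) K) (h0 : N.det ≠ 0) :
    (N.submatrix Sum.inl Sum.inl).det = N.det * ((N⁻¹).submatrix Sum.inr Sum.inr).det := by
  have hu : IsUnit N.det := isUnit_iff_ne_zero.2 h0
  have h1 : N * N⁻¹ = 1 := mul_nonsing_inv N hu
  have h2 : N * fromBlocks 1 ((N⁻¹).submatrix Sum.inl Sum.inr) 0 ((N⁻¹).submatrix Sum.inr Sum.inr) =
      fromBlocks (N.submatrix Sum.inl Sum.inl) 0 (N.submatrix Sum.inr Sum.inl) 1 := by
    ext i j
    rcases j with j | j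
    · simp only [Matrix.mul_apply, Fintype.sum_sum_type, fromBlocks_apply₁₁, fromBlocks_apply₂₁, Matrix.zero_apply,
        mul_zero, sum_const_zero, add_zero]
      rw [Finset.sum_eq_single j]
      · rcases i with i | i <;> simp
      · intro b _ hb
        rw [one_apply_ne hb, mul_zero]
      · simp
    · have h3 := congrFun (congrFun h1 i) (Sum.inr j)
      simp only [Matrix.mul_apply, Fintype.sum_sum_type] at h3
      simp only [Matrix.mul_apply, Fintype.sum_sum_type, fromBlocks_apply₁₂, fromBlocks_apply₂₂, submatrix_apply]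
      rw [h3]
      rcases i with i | i
      · simp
      · simp [Matrix.one_apply]
  have h3 := congrArg Matrix.det h2
  rw [det_mul, det_fromBlocks_zero₂₁, det_one, one_mul, det_fromBlocks_zero₁₂, det_one, mul_one] at h3
  exact h3.symm

end

theorem det4 {K : Type} [Field K] {P : Type} (S : Matrix P P K) (a b c d : P) (ε : K)
    (hS : ∀ p q, S q p = ε * S p q) (haa : S a a = 0) (hbb : S b b = 0) (hcc : S c c = 0) (hdd : S d d = 0)
    (hab : S a b = 0) :
    (S.submatrix ![a, b, c, d] ![a, b, c, d]).det =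
      (ε * (S a c * S b d - S a d * S b c)) * (ε * (S a c * S b d - S a d * S b c)) := by
  have hba : S b a = 0 := by rw [hS a b, hab, mul_zero]
  rw [det_succ_row_zero]
  simp only [Fin.sum_univ_succ, det_fin_three, submatrix_apply, Fin.sum_univ_zero]
  simp [Fin.succAbove, haa, hbb, hcc, hdd, hab, hba, hS a c, hS a d, hS b c, hS b d, hS c d]
  ring

theorem det2 {K : Type} [Field K] {P : Type} (S : Matrix P P K) (a b : P) (ε : K)
    (hS : ∀ p q, S q p = ε * S p q) (haa : S a a = 0) (hbb : S b b = 0) :
    (S.submatrix ![a, b] ![a, b]).det = - (ε * (S a b * S a b)) := by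
  rw [det_fin_two]
  simp [haa, hbb, hS a b]
  ring

end SQG
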