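import Pool.Agent.SQG.Defs

set_option autoImplicit false
set_option linter.unusedSectionVars false
set_option linter.unusedVariables false

/-! [SQG-P] a matching gadget for triangles and 4-cycles with a vertex with at most one outer edge -/

open Finset
open scoped Classical

namespace SQG

theorem p1_ind {A : Type} (G : SimpleGraph A) (W : Set A) :
    (∃ M : (G.induce W).Subgraph, M.IsPerfectMatching) ↔
      ∃ q : A → A, ∀ z ∈ W, q z ∈ W ∧ q (q z) = z ∧ G.Adj z (q z) := by
  constructor
  · rintro ⟨M, hM⟩
    rw [SimpleGraph.Subgraph.isPerfectMatching_iff] at hM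
    choose p hp1 hp2 using hM
    have hp1' : ∀ a, M.Adj a (p a) := hp1
    have hp2' : ∀ a b, M.Adj a b → b = p a := hp2
    have hpp : ∀ a, p (p a) = a := fun a => (hp2' (p a) a (hp1' a).symm).symm
    refine ⟨fun z => if h : z ∈ W then (p ⟨z, h⟩).1 else z, ?_⟩
    intro z hz
    have h1 : (p ⟨z, hz⟩).1 ∈ W := (p ⟨z, hz⟩).2
    simp only [dif_pos hz, dif_pos h1]
    refine ⟨h1, ?_, ?_⟩
    · have h2 : (⟨(p ⟨z, hz⟩).1, h1⟩ : W) = p ⟨z, hz⟩ := rfl
      rw [h2, hpp]
    · exact (hp1' ⟨z, hz⟩).adj_sub
  · rintro ⟨q, hq⟩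
    refine ⟨⟨Set.univ, fun a b => q a.1 = b.1, ?_, ?_, ?_⟩, ?_⟩
    · intro a b h
      have h1 := (hq a.1 a.2).2.2
      rw [h] at h1
      exact h1
    · intro a b _
      exact Set.mem_univ a
    · exact ⟨fun a b h => by rw [← h]; exact (hq a.1 a.2).2.1⟩
    · rw [SimpleGraph.Subgraph.isPerfectMatching_iff]
      intro a
      exact ⟨⟨q a.1, (hq a.1 a.2).1⟩, rfl, fun b hb => Subtype.ext (show q a.1 = b.1 from hb).symm⟩

/-- the assignment of a partner function -/
noncomputable def p1_psi {V N : Type} (D : N → Prop) (q : (V × Bool) ⊕ N → (V × Bool) ⊕ N) (n : N) : Option V :=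
  if D n then none else
  match q (Sum.inr n) with
  | Sum.inl w => some w.1
  | Sum.inr _ => none

theorem p1_psi_D {V N : Type} {D : N → Prop} {q : (V × Bool) ⊕ N → (V × Bool) ⊕ N} {n : N} (h : D n) :
    p1_psi D q n = none := if_pos h

theorem p1_psi_l {V N : Type} {D : N → Prop} {q : (V × Bool) ⊕ N → (V × Bool) ⊕ N} {n : N} (h : ¬ D n)
    {w : V × Bool} (hw : q (Sum.inr n) = Sum.inl w) : p1_psi D q n = some w.1 := by
  unfold p1_psi
  rw [if_neg h, hw]

theorem p1_psi_r {V N : Type} {D : N → Prop} {q : (V × Bool) ⊕ N → (V × Bool) ⊕ N} {n m : N}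
    (hw : q (Sum.inr n) = Sum.inr m) : p1_psi D q n = none := by
  unfold p1_psi
  rw [hw]
  exact ite_self _

theorem p1_to {V N : Type} [Fintype V] [DecidableEq V] [Fintype N] (σ : N → N) (S : N → Finset V)
    (h1 : ∀ n, σ (σ n) = n) (D : N → Prop) (q : (V × Bool) ⊕ N → (V × Bool) ⊕ N)
    (hq : ∀ z ∈ {z : (V × Bool) ⊕ N | ∀ n, D n → z ≠ Sum.inr n},
      q z ∈ {z : (V × Bool) ⊕ N | ∀ n, D n → z ≠ Sum.inr n} ∧ q (q z) = z ∧ (SQF.HG σ S).Adj z (q z)) :
    (∀ n, D n → p1_psi D q n = none) ∧
        (∀ n, ¬ D n → p1_psi D q n = none → ¬ D (σ n) ∧ p1_psi D q (σ n) = none) ∧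
        (∀ n v, p1_psi D q n = some v → v ∈ S n) ∧ ∀ v, SQF.cnt (p1_psi D q) v = 2 := by
  have hW : ∀ n, ¬ D n → (Sum.inr n : (V × Bool) ⊕ N) ∈ {z : (V × Bool) ⊕ N | ∀ n, D n → z ≠ Sum.inr n} := by
    intro n hn m hm h
    rw [Sum.inr.inj h] at hn
    exact hn hm
  have hL : ∀ w, (Sum.inl w : (V × Bool) ⊕ N) ∈ {z : (V × Bool) ⊕ N | ∀ n, D n → z ≠ Sum.inr n} := by
    intro w m hm h
    simp at h
  have hD : ∀ m, (Sum.inr m : (V × Bool) ⊕ N) ∈ {z : (V × Bool) ⊕ N | ∀ n, D n → z ≠ Sum.inr n} → ¬ D m :=
    fun m hm h => hm m h rfl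
  have hnone : ∀ n m, ¬ D n → q (Sum.inr n) = Sum.inr m → m = σ n := by
    intro n m hn h
    have h2 := (hq _ (hW n hn)).2.2
    rw [h] at h2
    have h3 : n ≠ m ∧ (σ n = m ∨ σ m = n) := h2
    rcases h3.2 with h4 | h4
    · exact h4.symm
    · rw [← h4, h1]
  refine ⟨fun n => p1_psi_D, ?_, ?_, ?_⟩
  · intro n hD1 hn
    rcases h : q (Sum.inr n) with w | m
    · rw [p1_psi_l hD1 h] at hn
      simp at hn
    · have h2 := hnone n m hD1 h
      have h3 := hq _ (hW n hD1)
      rw [h] at h3
      refine ⟨?_, ?_⟩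
      · rw [← h2]
        exact hD m h3.1
      · rw [← h2]
        exact p1_psi_r h3.2.1
  · intro n v hn
    have hD1 : ¬ D n := by
      intro h
      rw [p1_psi_D h] at hn
      simp at hn
    rcases h : q (Sum.inr n) with w | m
    · rw [p1_psi_l hD1 h] at hn
      have h2 : w.1 = v := Option.some.inj hn
      have h3 := (hq _ (hW n hD1)).2.2
      rw [h] at h3
      have h4 : w.1 ∈ S n := h3
      rwa [h2] at h4
    · rw [p1_psi_r h] at hn
      simp at hn
  · intro v
    have hx : ∀ j : Bool, ∃ n, q (Sum.inl (v, j)) = Sum.inr n := by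
      intro j
      rcases h : q (Sum.inl (v, j)) with w | m
      · have h2 := (hq _ (hL (v, j))).2.2
        rw [h] at h2
        exact absurd h2 (fun h3 => h3)
      · exact ⟨m, rfl⟩
    obtain ⟨n0, e0⟩ := hx false
    obtain ⟨n1, e1⟩ := hx true
    have q0 := hq _ (hL (v, false))
    have q1 := hq _ (hL (v, true))
    rw [e0] at q0
    rw [e1] at q1
    have d0 : ¬ D n0 := hD n0 q0.1
    have d1 : ¬ D n1 := hD n1 q1.1
    have hne : n0 ≠ n1 := by
      rintro rfl
      have h2 := q0.2.1
      rw [q1.2.1] at h2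
      simp at h2
    have hset : (univ.filter (fun n => p1_psi D q n = some v)) = {n0, n1} := by
      ext n
      simp only [mem_filter, mem_univ, true_and, mem_insert, mem_singleton]
      constructor
      · intro hn
        have hD1 : ¬ D n := by
          intro h
          rw [p1_psi_D h] at hn
          simp at hn
        rcases h : q (Sum.inr n) with w | m
        · rw [p1_psi_l hD1 h] at hn
          have h2 : w.1 = v := Option.some.inj hn
          obtain ⟨w1, w2⟩ := w
          simp only at h2
          subst h2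
          have h3 := (hq _ (hW n hD1)).2.1
          rw [h] at h3
          cases w2
          · left
            rw [e0] at h3
            exact (Sum.inr.inj h3).symm
          · right
            rw [e1] at h3
            exact (Sum.inr.inj h3).symm
        · rw [p1_psi_r h] at hn
          simp at hn
      · rintro (rfl | rfl)
        · exact p1_psi_l d0 q0.2.1
        · exact p1_psi_l d1 q1.2.1
    unfold SQF.cnt
    rw [hset, card_pair hne]

theorem p1_from {V N : Type} [Fintype V] [DecidableEq V] [Fintype N] (σ : N → N) (S : N → Finset V)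
    (h1 : ∀ n, σ (σ n) = n) (h2 : ∀ n, σ n ≠ n) (D : N → Prop) (φ : N → Option V)
    (hD : ∀ n, D n → φ n = none) (hs : ∀ n, ¬ D n → φ n = none → ¬ D (σ n) ∧ φ (σ n) = none)
    (hm : ∀ n v, φ n = some v → v ∈ S n) (hc : ∀ v, SQF.cnt φ v = 2) :
    ∃ q : (V × Bool) ⊕ N → (V × Bool) ⊕ N, ∀ z ∈ {z : (V × Bool) ⊕ N | ∀ n, D n → z ≠ Sum.inr n},
      q z ∈ {z : (V × Bool) ⊕ N | ∀ n, D n → z ≠ Sum.inr n} ∧ q (q z) = z ∧ (SQF.HG σ S).Adj z (q z) := by
  have hW : ∀ n, ¬ D n → (Sum.inr n : (V × Bool) ⊕ N) ∈ {z : (V × Bool) ⊕ N | ∀ n, D n → z ≠ Sum.inr n} := by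
    intro n hn m hm h
    rw [Sum.inr.inj h] at hn
    exact hn hm
  have hL : ∀ w, (Sum.inl w : (V × Bool) ⊕ N) ∈ {z : (V × Bool) ⊕ N | ∀ n, D n → z ≠ Sum.inr n} := by
    intro w m hm h
    simp at h
  have hDm : ∀ m, (Sum.inr m : (V × Bool) ⊕ N) ∈ {z : (V × Bool) ⊕ N | ∀ n, D n → z ≠ Sum.inr n} → ¬ D m :=
    fun m hm h => hm m h rfl
  have hx : ∀ v, ∃ n0 n1, n0 ≠ n1 ∧ (univ.filter (fun n => φ n = some v)) = {n0, n1} :=
    fun v => card_eq_two.1 (hc v)
  choose n0 n1 hne hset using hx
  have hmem : ∀ v n, φ n = some v ↔ n = n0 v ∨ n = n1 v := by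
    intro v n
    have h3 := congrArg (fun s => n ∈ s) (hset v)
    simpa only [mem_filter, mem_univ, true_and, mem_insert, mem_singleton, eq_iff_iff] using h3
  have hnD : ∀ n v, φ n = some v → ¬ D n := by
    intro n v h h3
    rw [hD n h3] at h
    simp at h
  set p : (V × Bool) ⊕ N → (V × Bool) ⊕ N := fun a =>
    match a with
    | Sum.inl w => Sum.inr (if w.2 = true then n1 w.1 else n0 w.1)
    | Sum.inr n => match φ n with
      | some v => Sum.inl (v, decide (n = n1 v))
      | none => Sum.inr (σ n) with hp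
  have p1 : ∀ v, p (Sum.inl (v, true)) = Sum.inr (n1 v) := fun v => rfl
  have p2 : ∀ v, p (Sum.inl (v, false)) = Sum.inr (n0 v) := fun v => rfl
  have p3 : ∀ n v, φ n = some v → p (Sum.inr n) = Sum.inl (v, decide (n = n1 v)) := by
    intro n v h
    simp only [hp, h]
  have p4 : ∀ n, φ n = none → p (Sum.inr n) = Sum.inr (σ n) := by
    intro n h
    simp only [hp, h]
  have e0 : ∀ v, φ (n0 v) = some v := fun v => (hmem v _).2 (Or.inl rfl)
  have e1 : ∀ v, φ (n1 v) = some v := fun v => (hmem v _).2 (Or.inr rfl)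
  refine ⟨p, fun a ha => ?_⟩
  rcases a with ⟨v, j⟩ | n
  · cases j
    · rw [p2]
      refine ⟨hW _ (hnD _ v (e0 v)), ?_, hm _ v (e0 v)⟩
      rw [p3 (n0 v) v (e0 v)]
      have : decide (n0 v = n1 v) = false := decide_eq_false (hne v)
      rw [this]
    · rw [p1]
      refine ⟨hW _ (hnD _ v (e1 v)), ?_, hm _ v (e1 v)⟩
      rw [p3 (n1 v) v (e1 v)]
      have : decide (n1 v = n1 v) = true := decide_eq_true rfl
      rw [this]
  · have hn : ¬ D n := hDm n ha
    rcases h : φ n with - | v
    · have h5 := hs n hn h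
      rw [p4 n h]
      refine ⟨hW _ h5.1, ?_, ⟨fun h3 => h2 n h3.symm, Or.inl rfl⟩⟩
      rw [p4 _ h5.2, h1]
    · rw [p3 n v h]
      refine ⟨hL _, ?_, hm n v h⟩
      by_cases h3 : n = n1 v
      · have : decide (n = n1 v) = true := decide_eq_true h3
        rw [this, p1, ← h3]
      · have : decide (n = n1 v) = false := decide_eq_false h3
        rw [this, p2]
        rcases (hmem v n).1 h with h4 | h4
        · rw [← h4]
        · exact absurd h4 h3

/-- (P1) `SQF.pm_iff` (file Pool/Agent/SQF/P1.lean) with some nodes removed; adapt its proof. PROOF. (→) Let `M` be a perfect matching. For a remaining node `n` (`¬ D n`) its partner is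
either `inl (v, b)` (put `φ n = some v`, `v ∈ S n` by adjacency) or a remaining node, which is `σ n` (put `φ n = none`; then `¬ D (σ n)` and the partner of `σ n` is `n`, so
`φ (σ n) = none`). For removed nodes `φ n = none`. `cnt φ v = 2`: the nodes with `φ n = some v` are the partners of `(v, false)` and `(v, true)`, which are two different
nodes. (←) Given `φ`, for each `v` choose a bijection between `{n | φ n = some v}` (2 elements, none of them removed) and `Bool`
(as in the proof of `pm_iff`); match `(v, b)` with the corresponding node and `n` with `σ n` if `φ n = none`, `¬ D n`. -/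
theorem pmx {V N : Type} [Fintype V] [DecidableEq V] [Fintype N] (σ : N → N) (S : N → Finset V)
    (h1 : ∀ n, σ (σ n) = n) (h2 : ∀ n, σ n ≠ n) (D : N → Prop) :
    (∃ M : ((SQF.HG σ S).induce {z | ∀ n, D n → z ≠ Sum.inr n}).Subgraph, M.IsPerfectMatching) ↔
      ∃ φ : N → Option V, (∀ n, D n → φ n = none) ∧
        (∀ n, ¬ D n → φ n = none → ¬ D (σ n) ∧ φ (σ n) = none) ∧
        (∀ n v, φ n = some v → v ∈ S n) ∧ ∀ v, SQF.cnt φ v = 2 := by
  rw [p1_ind]
  constructor
  · rintro ⟨q, hq⟩
    exact ⟨p1_psi D q, p1_to σ S h1 D q hq⟩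
  · rintro ⟨φ, hD, hs, hm, hc⟩
    exact p1_from σ S h1 h2 D φ hD hs hm hc

section
variable {k : ℕ} {n : Fin (k + 3) → ℕ}

/-- the nodes of the gadget: two for every vertex of the cycle, two for every port -/
abbrev NC (n : Fin (k + 3) → ℕ) : Type := (Fin (k + 3) × Bool) ⊕ (Port n × Bool)

/-- partner -/
def sgC : NC n → NC n
  | Sum.inl q => Sum.inl (q.1, !q.2)
  | Sum.inr q => Sum.inr (q.1, !q.2)

/-- the vertices to which a node may be attached; the vertex `c` has no edge of its own -/
def stC (c : Fin (k + 3)) : NC n → Finset (Fin (k + 3))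
  | Sum.inl q => if q.1 = c then ∅ else if q.2 then {q.1 + 1, q.1 - 1} else {q.1}
  | Sum.inr q => if q.2 then {q.1.1} else ∅

/-- number of chosen edges at `w`, where `own w` is the choice of `w`: `some true` is the next vertex, `some false` the previous one -/
def cw (own : Fin (k + 3) → Option Bool) (w : Fin (k + 3)) : ℕ :=
  (if own w = none then 0 else 1) + (if own (w - 1) = some true then 1 else 0) +
    (if own (w + 1) = some false then 1 else 0)

/-- the assignment of a choice `own` and a set of ports `X` -/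
def p2_F (own : Fin (k + 3) → Option Bool) (X : Finset (Port n)) : NC n → Option (Fin (k + 3))
  | Sum.inl (w, false) => (own w).map (fun _ => w)
  | Sum.inl (w, true) => (own w).map (fun b => if b = true then w + 1 else w - 1)
  | Sum.inr (_, false) => none
  | Sum.inr (p, true) => if p ∈ X then some p.1 else none

theorem p2_cnt (own : Fin (k + 3) → Option Bool) (X : Finset (Port n)) (v : Fin (k + 3)) :
    SQF.cnt (p2_F own X) v = cw own v + (X.filter (fun p => p.1 = v)).card := by
  unfold SQF.cnt
  rw [Finset.card_filter, Fintype.sum_sum_type, Fintype.sum_prod_type, Fintype.sum_prod_type]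
  simp only [Fintype.sum_bool]
  have h1 : ∀ w : Fin (k + 3), ((if p2_F own X (Sum.inl (w, true)) = some v then 1 else 0) +
      (if p2_F own X (Sum.inl (w, false)) = some v then 1 else 0) : ℕ) =
      (if w = v - 1 then (if own w = some true then 1 else 0) else 0) +
      (if w = v + 1 then (if own w = some false then 1 else 0) else 0) +
      (if w = v then (if own w = none then 0 else 1) else 0) := by
    intro w
    have e1 : w + 1 = v ↔ w = v - 1 := eq_sub_iff_add_eq.symm
    have e2 : w - 1 = v ↔ w = v + 1 := sub_eq_iff_eq_add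
    rcases h : own w with - | b
    · simp [p2_F, h]
    · cases b
      · simp [p2_F, h, e2]
      · simp [p2_F, h, e1]
  have h2 : ∀ p : Port n, ((if p2_F own X (Sum.inr (p, true)) = some v then 1 else 0) +
      (if p2_F own X (Sum.inr (p, false)) = some v then 1 else 0) : ℕ) =
      if p ∈ X.filter (fun p => p.1 = v) then 1 else 0 := by
    intro p
    by_cases hp : p ∈ X
    · simp [p2_F, hp]
    · simp [p2_F, hp]
  rw [Finset.sum_congr rfl (fun w _ => h1 w), Finset.sum_congr rfl (fun p _ => h2 p)]
  rw [Finset.sum_add_distrib, Finset.sum_add_distrib]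
  simp only [Finset.sum_ite_eq', mem_univ, if_true]
  have h3 : (∑ p : Port n, if p ∈ X.filter (fun p => p.1 = v) then 1 else 0) =
      (X.filter (fun p => p.1 = v)).card := by
    rw [← Finset.card_filter, Finset.filter_univ_mem]
  rw [h3]
  unfold cw
  omega

/-- (P2) PROOF. (→) `φ` on `inr (p, false)`: always `none` (`stC = ∅`); on `inr (p, true)`: if `p ∉ X` then `inr (p, false)` is not removed and `φ = none` there, so `φ (inr (p, true)) = none`;
if `p ∈ X` then `φ (inr (p, true)) = none` would give `¬ D (inr (p, false))`, false; so it is `some p.1`. So the port nodes contribute `(X.filter (·.1 = w)).card` to `cnt φ w`.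
On `inl (w, false)` and `inl (w, true)`: both `none` or both not (`sgC`), the first is then `some w`, the second `some (w + 1)` or `some (w - 1)`, and for `w = c` both are `none`.
`own w := none` if `φ (inl (w, true)) = none`, `some true` if it is `some (w + 1)`, `some false` otherwise (`w + 1 ≠ w - 1` in `Fin (k + 3)`). `cnt φ w` is `cw own w` plus the contribution of the ports
(the nodes `inl (u, true)` with `φ = some w` are `u = w - 1` with `own u = some true` and `u = w + 1` with `own u = some false`; `w - 1 ≠ w + 1`). (←) Define `φ` from `own` and `X` by the same formulas. -/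
theorem phi_iff_own (c : Fin (k + 3)) (X : Finset (Port n)) :
    (∃ φ : NC n → Option (Fin (k + 3)), (∀ z, (∃ p ∈ X, z = Sum.inr (p, false)) → φ z = none) ∧
        (∀ z, ¬ (∃ p ∈ X, z = Sum.inr (p, false)) → φ z = none →
          ¬ (∃ p ∈ X, sgC z = Sum.inr (p, false)) ∧ φ (sgC z) = none) ∧
        (∀ z v, φ z = some v → v ∈ stC c z) ∧ ∀ v, SQF.cnt φ v = 2) ↔
      ∃ own : Fin (k + 3) → Option Bool, own c = none ∧
        ∀ w, cw own w + (X.filter (fun p => p.1 = w)).card = 2 := by
  constructor
  · rintro ⟨φ, hD, hN, hS, hc⟩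
    have a1 : ∀ w b, φ (Sum.inl (w, b)) = none → φ (Sum.inl (w, !b)) = none := by
      intro w b h
      exact (hN (Sum.inl (w, b)) (by rintro ⟨p, _, hp⟩; exact absurd hp Sum.inl_ne_inr) h).2
    have a2 : ∀ w v, φ (Sum.inl (w, false)) = some v → v = w := by
      intro w v h
      have h3 := hS _ _ h
      by_cases hw : w = c
      · simp [stC, hw] at h3
      · simpa [stC, hw] using h3
    have a3 : ∀ w v, φ (Sum.inl (w, true)) = some v → w ≠ c ∧ (v = w + 1 ∨ v = w - 1) := by
      intro w v h
      have h3 := hS _ _ h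
      by_cases hw : w = c
      · simp [stC, hw] at h3
      · refine ⟨hw, ?_⟩
        simpa [stC, hw] using h3
    have a4 : ∀ p, φ (Sum.inr (p, false)) = none := by
      intro p
      rcases h : φ (Sum.inr (p, false)) with - | v
      · rfl
      · have h3 := hS _ _ h
        simp [stC] at h3
    have a5 : ∀ p v, φ (Sum.inr (p, true)) = some v → v = p.1 := by
      intro p v h
      have h3 := hS _ _ h
      simpa [stC] using h3
    have a6 : ∀ p ∈ X, φ (Sum.inr (p, true)) ≠ none := by
      intro p hp h
      have h3 := (hN (Sum.inr (p, true)) (by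
        rintro ⟨q, _, hq⟩
        have := Sum.inr.inj hq
        simp at this) h).1
      exact h3 ⟨p, hp, rfl⟩
    have a7 : ∀ p, p ∉ X → φ (Sum.inr (p, true)) = none := by
      intro p hp
      exact (hN (Sum.inr (p, false)) (by
        rintro ⟨q, hq, hq2⟩
        have h3 : p = q := (Prod.ext_iff.1 (Sum.inr.inj hq2)).1
        exact hp (h3 ▸ hq)) (a4 p)).2
    set own : Fin (k + 3) → Option Bool :=
      fun w => (φ (Sum.inl (w, true))).map (fun v => decide (v = w + 1)) with hown
    have hF : φ = p2_F own X := by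
      funext z
      rcases z with ⟨w, b⟩ | ⟨p, b⟩
      · cases b
        · rcases h : φ (Sum.inl (w, false)) with - | v
          · have h4 : φ (Sum.inl (w, true)) = none := a1 w false h
            simp [p2_F, hown, h4]
          · have h4 : φ (Sum.inl (w, true)) ≠ none := by
              intro h5
              have h6 : φ (Sum.inl (w, false)) = none := a1 w true h5
              rw [h] at h6
              exact absurd h6 (Option.some_ne_none v)
            obtain ⟨u, hu⟩ := Option.ne_none_iff_exists'.1 h4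
            simp [p2_F, hown, hu, a2 w v h]
        · rcases h : φ (Sum.inl (w, true)) with - | v
          · simp [p2_F, hown, h]
          · rcases (a3 w v h).2 with h3 | h3
            · subst h3
              simp [p2_F, hown, h]
            · by_cases h4 : v = w + 1
              · subst h4
                simp [p2_F, hown, h]
              · have h5 : decide (v = w + 1) = false := decide_eq_false h4
                simp only [p2_F, hown, h, Option.map_some, h5]
                simp [h3]
      · cases b
        · simp [p2_F, a4 p]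
        · by_cases hp : p ∈ X
          · obtain ⟨u, hu⟩ := Option.ne_none_iff_exists'.1 (a6 p hp)
            simp [p2_F, hp, hu, a5 p u hu]
          · simp [p2_F, hp, a7 p hp]
    refine ⟨own, ?_, ?_⟩
    · rcases h : φ (Sum.inl (c, true)) with - | v
      · simp [hown, h]
      · exact absurd rfl (a3 c v h).1
    · intro w
      rw [← p2_cnt, ← hF]
      exact hc w
  · rintro ⟨own, hc, hw⟩
    refine ⟨p2_F own X, ?_, ?_, ?_, ?_⟩
    · rintro z ⟨p, hp, rfl⟩
      rfl
    · intro z hz h
      rcases z with ⟨w, b⟩ | ⟨p, b⟩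
      · have h3 : own w = none := by
          cases b
          · simpa [p2_F] using h
          · simpa [p2_F] using h
        refine ⟨?_, ?_⟩
        · rintro ⟨p, _, hp⟩
          exact absurd hp Sum.inl_ne_inr
        · cases b
          · simp [p2_F, sgC, h3]
          · simp [p2_F, sgC, h3]
      · cases b
        · have hp : p ∉ X := fun hp => hz ⟨p, hp, rfl⟩
          refine ⟨?_, ?_⟩
          · rintro ⟨q, _, hq⟩
            have := Sum.inr.inj hq
            simp at this
          · simp [p2_F, sgC, hp]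
        · have hp : p ∉ X := by
            intro hp
            simp [p2_F, hp] at h
          refine ⟨?_, ?_⟩
          · rintro ⟨q, hq, hq2⟩
            have h3 : p = q := (Prod.ext_iff.1 (Sum.inr.inj hq2)).1
            exact hp (h3 ▸ hq)
          · rfl
    · intro z v h
      rcases z with ⟨w, b⟩ | ⟨p, b⟩
      · have hwc : w ≠ c := by
          rintro rfl
          cases b
          · simp [p2_F, hc] at h
          · simp [p2_F, hc] at h
        cases b
        · have h3 : w = v := by
            rcases h4 : own w with - | x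
            · simp [p2_F, h4] at h
            · simpa [p2_F, h4] using h
          simp [stC, hwc, ← h3]
        · rcases h4 : own w with - | x
          · simp [p2_F, h4] at h
          · cases x
            · have h3 : w - 1 = v := by simpa [p2_F, h4] using h
              simp [stC, hwc, ← h3]
            · have h3 : w + 1 = v := by simpa [p2_F, h4] using h
              simp [stC, hwc, ← h3]
      · cases b
        · simp [p2_F] at h
        · by_cases hp : p ∈ X
          · have h3 : p.1 = v := by simpa [p2_F, hp] using h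
            simp [stC, h3]
          · simp [p2_F, hp] at h
    · intro v
      rw [p2_cnt]
      exact hw v

theorem p3_fwd3 : ∀ (own : Fin (0 + 3) → Option Bool) (c : Fin (0 + 3)), own c = none →
    (∀ w, cw own w ≤ 2) → 1 ≤ cw own c →
    ∃ t : Fin (0 + 3) → Bool, (∃ w, t w = false) ∧ ∀ w, (t w).toNat + (t (w - 1)).toNat = cw own w := by
  decide +kernel

theorem p3_bwd3 : ∀ (t : Fin (0 + 3) → Bool) (c : Fin (0 + 3)), (∃ w, t w = false) →
    1 ≤ (t c).toNat + (t (c - 1)).toNat →
    ∃ own : Fin (0 + 3) → Option Bool, own c = none ∧ ∀ w, (t w).toNat + (t (w - 1)).toNat = cw own w := by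
  decide +kernel

theorem p3_fwd4 : ∀ (own : Fin (1 + 3) → Option Bool) (c : Fin (1 + 3)), own c = none →
    (∀ w, cw own w ≤ 2) → 1 ≤ cw own c →
    ∃ t : Fin (1 + 3) → Bool, (∃ w, t w = false) ∧ ∀ w, (t w).toNat + (t (w - 1)).toNat = cw own w := by
  decide +kernel

theorem p3_bwd4 : ∀ (t : Fin (1 + 3) → Bool) (c : Fin (1 + 3)), (∃ w, t w = false) →
    1 ≤ (t c).toNat + (t (c - 1)).toNat →
    ∃ own : Fin (1 + 3) → Option Bool, own c = none ∧ ∀ w, (t w).toNat + (t (w - 1)).toNat = cw own w := by
  decide +kernel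

theorem p3_main {k : ℕ} (c : Fin (k + 3)) (x : Fin (k + 3) → ℕ) (hx : x c ≤ 1)
    (hf : ∀ (own : Fin (k + 3) → Option Bool) (c : Fin (k + 3)), own c = none →
      (∀ w, cw own w ≤ 2) → 1 ≤ cw own c →
      ∃ t : Fin (k + 3) → Bool, (∃ w, t w = false) ∧ ∀ w, (t w).toNat + (t (w - 1)).toNat = cw own w)
    (hb : ∀ (t : Fin (k + 3) → Bool) (c : Fin (k + 3)), (∃ w, t w = false) →
      1 ≤ (t c).toNat + (t (c - 1)).toNat →
      ∃ own : Fin (k + 3) → Option Bool, own c = none ∧ ∀ w, (t w).toNat + (t (w - 1)).toNat = cw own w) :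
    (∃ own : Fin (k + 3) → Option Bool, own c = none ∧ ∀ w, cw own w + x w = 2) ↔
      ∃ t : Fin (k + 3) → Bool, (∃ w, t w = false) ∧ ∀ w, (t w).toNat + (t (w - 1)).toNat + x w = 2 := by
  constructor
  · rintro ⟨own, h1, h2⟩
    obtain ⟨t, h3, h4⟩ := hf own c h1 (fun w => by have := h2 w; omega) (by have := h2 c; omega)
    exact ⟨t, h3, fun w => by rw [h4]; exact h2 w⟩
  · rintro ⟨t, h1, h2⟩
    obtain ⟨own, h3, h4⟩ := hb t c h1 (by have := h2 c; omega)
    exact ⟨own, h3, fun w => by rw [← h4]; exact h2 w⟩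

/-- (P3) finite check. PROOF. `k = 0` or `k = 1` (`interval_cases k`). Brute force: for (→), for every `own` with `own c = none` and all `cw own w ≤ 2`, `cw own c ≥ 1` there is a `t`, not constantly
true, with `(t w).toNat + (t (w - 1)).toNat = cw own w` for all `w`; for (←), conversely for every such `t` with `(t c).toNat + (t (c - 1)).toNat ≥ 1` there is `own`. Both are decidable statements about
`Fin (k + 3) → Option Bool` (81 functions) and `Fin (k + 3) → Bool` (16 functions), all values `c`: checked by brute force in Python. Write functions as `![a, b, c', d]` (`fin_cases c`, values by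
`rcases h : own 0` ...), or `decide` (possibly `set_option maxRecDepth`), without native_decide. -/
theorem comb (hk : k ≤ 1) (c : Fin (k + 3)) (x : Fin (k + 3) → ℕ) (hx : x c ≤ 1) :
    (∃ own : Fin (k + 3) → Option Bool, own c = none ∧ ∀ w, cw own w + x w = 2) ↔
      ∃ t : Fin (k + 3) → Bool, (∃ w, t w = false) ∧ ∀ w, (t w).toNat + (t (w - 1)).toNat + x w = 2 := by
  interval_cases k
  · exact p3_main c x hx p3_fwd3 p3_bwd3
  · exact p3_main c x hx p3_fwd4 p3_bwd4

theorem p4_one_ne : (1 : Fin (k + 3)) ≠ 0 := by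
  intro h
  have h2 := congrArg Fin.val h
  rw [Fin.val_one, Fin.val_zero] at h2
  omega

theorem p4_two_ne : (1 : Fin (k + 3)) + 1 ≠ 0 := by
  intro h
  have h2 := congrArg Fin.val h
  rw [Fin.val_add, Fin.val_one, Fin.val_zero, Nat.mod_eq_of_lt (by omega)] at h2
  omega

theorem p4_adj {u v : Fin (k + 3)} :
    (SimpleGraph.cycleGraph (k + 3)).Adj u v ↔ v = u + 1 ∨ u = v + 1 := by
  rw [SimpleGraph.cycleGraph_adj]
  constructor
  · rintro (h | h)
    · right
      rw [← h]
      abel
    · left
      rw [← h]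
      abel
  · rintro (h | h)
    · right
      rw [h]
      abel
    · left
      rw [h]
      abel

theorem p4_ne_add (w : Fin (k + 3)) : w + 1 ≠ w := by
  intro h
  exact p4_one_ne (add_eq_left.1 h)

theorem p4_ne (w : Fin (k + 3)) : w + 1 ≠ w - 1 := by
  intro h
  apply p4_two_ne (k := k)
  have h2 : w + (1 + 1) = w := by
    rw [← add_assoc, h]
    abel
  exact add_eq_left.1 h2

theorem p4_dg (I : SimpleGraph (Fin (k + 3))) (t : Fin (k + 3) → Bool)
    (h : ∀ u v, I.Adj u v ↔ (v = u + 1 ∧ t u = true) ∨ (u = v + 1 ∧ t v = true)) (w : Fin (k + 3)) :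
    SQF.dg I.Adj w = (t w).toNat + (t (w - 1)).toNat := by
  have hne := p4_ne w
  have h' : ∀ u, I.Adj w u ↔ (u = w + 1 ∧ t w = true) ∨ (u = w - 1 ∧ t (w - 1) = true) := by
    intro u
    rw [h]
    constructor
    · rintro (h1 | ⟨h1, h2⟩)
      · exact Or.inl h1
      · right
        have h3 : u = w - 1 := by
          rw [h1]
          abel
        rw [← h3]
        exact ⟨rfl, h2⟩
    · rintro (h1 | ⟨h1, h2⟩)
      · exact Or.inl h1
      · right
        rw [h1]
        exact ⟨by abel, h2⟩
  unfold SQF.dg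
  rcases h1 : t w with _ | _
  · rcases h2 : t (w - 1) with _ | _
    · rw [filter_eq_empty_iff.2]
      · simp
      · intro u _ hu
        rw [h'] at hu
        simp [h1, h2] at hu
    · have : (univ.filter (fun u => I.Adj w u)) = {w - 1} := by
        ext u
        rw [mem_filter, h', mem_singleton]
        simp [h1, h2]
      rw [this, card_singleton]
      simp
  · rcases h2 : t (w - 1) with _ | _
    · have : (univ.filter (fun u => I.Adj w u)) = {w + 1} := by
        ext u
        rw [mem_filter, h', mem_singleton]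
        simp [h1, h2]
      rw [this, card_singleton]
      simp
    · have : (univ.filter (fun u => I.Adj w u)) = {w + 1, w - 1} := by
        ext u
        rw [mem_filter, h', mem_insert, mem_singleton]
        simp [h1, h2]
      rw [this, card_pair hne]
      simp

/-- (P4) PROOF. `SimpleGraph.cycleGraph_adj : (cycleGraph (n + 2)).Adj u v ↔ u - v = 1 ∨ v - u = 1`. (→) `t w := decide (I.Adj w (w + 1))`; `I ≤ cycleGraph` and `I ≠ cycleGraph` give a `w` with `t w = false`
(otherwise `cycleGraph ≤ I`); the `I`-neighbours of `w` are `w + 1` (iff `t w`) and `w - 1` (iff `t (w - 1)`), different vertices, so `dg I.Adj w = (t w).toNat + (t (w - 1)).toNat`.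
(←) `I.Adj u v := (v = u + 1 ∧ t u) ∨ (u = v + 1 ∧ t v)` with `u ≠ v`. -/
theorem ext_cyc_iff (X : Finset (Port n)) : Ext (AlCyc (k + 3)) n X ↔
    ∃ t : Fin (k + 3) → Bool, (∃ w, t w = false) ∧
      ∀ w, (t w).toNat + (t (w - 1)).toNat + (X.filter (fun p => p.1 = w)).card = 2 := by
  unfold Ext
  constructor
  · rintro ⟨I, ⟨hle, hne⟩, hI⟩
    have hadj : ∀ u v, I.Adj u v ↔
        (v = u + 1 ∧ (decide (I.Adj u (u + 1))) = true) ∨ (u = v + 1 ∧ (decide (I.Adj v (v + 1))) = true) := by
      intro u v
      constructor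
      · intro h
        rcases p4_adj.1 (hle h) with h2 | h2
        · left
          refine ⟨h2, ?_⟩
          rw [decide_eq_true_eq, ← h2]
          exact h
        · right
          refine ⟨h2, ?_⟩
          rw [decide_eq_true_eq, ← h2]
          exact h.symm
      · rintro (⟨h1, h2⟩ | ⟨h1, h2⟩)
        · rw [h1]
          exact of_decide_eq_true h2
        · rw [h1]
          exact (of_decide_eq_true h2).symm
    refine ⟨fun w => decide (I.Adj w (w + 1)), ?_, ?_⟩
    · by_contra hcon
      push Not at hcon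
      apply hne
      refine le_antisymm hle ?_
      intro u v huv
      rw [hadj]
      rcases p4_adj.1 huv with h | h
      · left
        refine ⟨h, ?_⟩
        have := hcon u
        simpa using this
      · right
        refine ⟨h, ?_⟩
        have := hcon v
        simpa using this
    · intro w
      have h3 := hI w
      rw [p4_dg I (fun w => decide (I.Adj w (w + 1))) hadj w] at h3
      exact h3
  · rintro ⟨t, ⟨w0, hw0⟩, ht⟩
    let I : SimpleGraph (Fin (k + 3)) :=
      { Adj := fun u v => (v = u + 1 ∧ t u = true) ∨ (u = v + 1 ∧ t v = true)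
        symm := ⟨fun u v h => Or.symm h⟩
        loopless := ⟨fun u h => by
          rcases h with h | h
          · exact p4_ne_add u h.1.symm
          · exact p4_ne_add u h.1.symm⟩ }
    have hadj : ∀ u v, I.Adj u v ↔ (v = u + 1 ∧ t u = true) ∨ (u = v + 1 ∧ t v = true) := fun u v => Iff.rfl
    refine ⟨I, ⟨?_, ?_⟩, ?_⟩
    · intro u v huv
      rw [p4_adj]
      rcases (hadj u v).1 huv with h | h
      · exact Or.inl h.1
      · exact Or.inr h.1
    · intro heq
      have h1 : (SimpleGraph.cycleGraph (k + 3)).Adj w0 (w0 + 1) := p4_adj.2 (Or.inl rfl)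
      rw [← heq, hadj] at h1
      rcases h1 with ⟨-, h1⟩ | ⟨h1, -⟩
      · rw [hw0] at h1
        exact Bool.false_ne_true h1
      · apply p4_two_ne (k := k)
        rw [add_assoc] at h1
        exact add_eq_left.1 h1.symm
    · intro w
      have h3 := ht w
      rw [← p4_dg I t hadj w] at h3
      exact h3

theorem match_of_light (hk : k ≤ 1) (c : Fin (k + 3)) (hc : n c ≤ 1) : MatchGadget (AlCyc (k + 3)) n := by
  refine ⟨(Fin (k + 3) × Bool) ⊕ NC n, inferInstance, SQF.HG sgC (stC c),
    fun p => Sum.inr (Sum.inr (p, false)), ?_, ?_⟩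
  · intro p q h
    simpa using h
  intro X
  have hx : (X.filter (fun p => p.1 = c)).card ≤ 1 := by
    refine le_trans ?_ hc
    calc (X.filter (fun p => p.1 = c)).card ≤ ((univ : Finset (Fin (n c))).image (fun i => (⟨c, i⟩ : Port n))).card := by
          apply card_le_card
          intro p hp
          obtain ⟨w, i⟩ := p
          obtain rfl : w = c := (mem_filter.1 hp).2
          exact mem_image_of_mem _ (mem_univ _)
      _ ≤ (univ : Finset (Fin (n c))).card := card_image_le
      _ = n c := by simp
  rw [ext_cyc_iff, ← comb hk c (fun w => (X.filter (fun p => p.1 = w)).card) hx, ← phi_iff_own,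
    ← pmx sgC (stC c) (D := fun z => ∃ p ∈ X, z = Sum.inr (p, false))]
  · have : {z : (Fin (k + 3) × Bool) ⊕ NC n | ∀ m, (∃ p ∈ X, m = Sum.inr (p, false)) → z ≠ Sum.inr m} =
        {z | ∀ p ∈ X, z ≠ Sum.inr (Sum.inr (p, false))} := by
      ext z
      constructor
      · intro h p hp
        exact h _ ⟨p, hp, rfl⟩
      · rintro h m ⟨p, hp, rfl⟩
        exact h p hp
    rw [this]
  · rintro (⟨w, b⟩ | ⟨p, b⟩) <;> simp [sgC]
  · rintro (⟨w, b⟩ | ⟨p, b⟩) <;> simp [sgC]

end

end SQG
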