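import Pool.Agent.SQG.Defs

set_option autoImplicit false
set_option linter.unusedSectionVars false
set_option linter.unusedVariables false

/-! [SQG-S] from a linear gadget to the abstract barrier -/

open Finset Matrix
open scoped Classical

namespace SQG

/-- (S1) PROOF. The map `g : {z // ∀ q, z ≠ τ q} ⊕ Fin k → {z // P z}`, `inl z ↦ ⟨z.1, _⟩` (`hP`: vacuous), `inr i ↦ ⟨τ (e i), _⟩` (`hP`, `hτ`) is a
bijection: injective by `he`, `hτ`; surjective: if `P z` and `z = τ q` for some `q` then `q = e i` for some `i`. With `E := Equiv.ofBijective g`,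
`Matrix.det_submatrix_equiv_self E` and the two matrices agree entrywise (`ext`, cases). -/
theorem sub_equiv {K : Type} [Field K] {Z Q : Type} [Fintype Z] [Fintype Q] (A : Matrix Z Z K) (τ : Q → Z)
    (hτ : Function.Injective τ) {k : ℕ} (e : Fin k → Q) (he : Function.Injective e) (P : Z → Prop)
    (hP : ∀ z, P z ↔ ∀ q, z = τ q → ∃ i, e i = q) :
    (A.submatrix (fun z : {z // P z} => z.1) (fun z : {z // P z} => z.1)).det =
      ((A.submatrix (Sum.elim (fun z : {z // ∀ q, z ≠ τ q} => z.1) τ)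
        (Sum.elim (fun z : {z // ∀ q, z ≠ τ q} => z.1) τ)).submatrix (Sum.map id e) (Sum.map id e)).det := by
  let g : {z // ∀ q, z ≠ τ q} ⊕ Fin k → {z // P z} :=
    Sum.elim (fun z => ⟨z.1, (hP z.1).2 (fun q hq => absurd hq (z.2 q))⟩)
      (fun i => ⟨τ (e i), (hP _).2 (fun q hq => ⟨i, hτ hq⟩)⟩)
  have hg : Function.Bijective g := by
    constructor
    · intro a b hab
      rcases a with a | a <;> rcases b with b | b
      · have h1 : (g (Sum.inl a)).1 = (g (Sum.inl b)).1 := by rw [hab]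
        exact congrArg Sum.inl (Subtype.ext h1)
      · have h1 : a.1 = τ (e b) := congrArg Subtype.val hab
        exact absurd h1 (a.2 (e b))
      · have h1 : τ (e a) = b.1 := congrArg Subtype.val hab
        exact absurd h1.symm (b.2 (e a))
      · have h1 : τ (e a) = τ (e b) := congrArg Subtype.val hab
        exact congrArg Sum.inr (he (hτ h1))
    · intro z
      by_cases hz : ∃ q, z.1 = τ q
      · obtain ⟨q, hq⟩ := hz
        obtain ⟨i, hi⟩ := (hP z.1).1 z.2 q hq
        refine ⟨Sum.inr i, Subtype.ext ?_⟩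
        change τ (e i) = z.1
        rw [hi, hq]
      · exact ⟨Sum.inl ⟨z.1, fun q hq => hz ⟨q, hq⟩⟩, Subtype.ext rfl⟩
  rw [← Matrix.det_submatrix_equiv_self (Equiv.ofBijective g hg)]
  congr 1
  ext a b
  rcases a with a | a <;> rcases b with b | b <;> rfl

/-- (S2) PROOF. Put `ε := 1` or `ε := -1` according to `hA` (`ε * ε = 1`, `A q p = ε * A p q`). `sub_equiv` with `k = 0` gives that the determinant of
`M.submatrix Sum.inl Sum.inl` is the one in `h0` (they are even equal by `rfl`/`ext`), `M := A.submatrix (Sum.elim _ τ) (Sum.elim _ τ)`. `schur M ε` gives `S`;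
apply `barrier h1 h2 S ε _ _ hC` with `hF` and the equivalence of `schur`. -/
theorem no_lin_schur {ι : Type} [Fintype ι] [DecidableEq ι] {ν : Equiv.Perm ι} (h1 : ∀ v, ν v ≠ v)
    (h2 : ∀ v, ν v ≠ ν.symm v) {K : Type} [Field K] {Z : Type} [Fintype Z] (A : Matrix Z Z K)
    (hA : Aᵀ = A ∨ Aᵀ = -A) (τ : ι × Bool → Z) {Fam : (m : ℕ) → (Fin m → ι × Bool) → Prop}
    (hC : CycFam ν Fam)
    (h0 : (A.submatrix (fun z : {z // ∀ q, z ≠ τ q} => z.1) (fun z : {z // ∀ q, z ≠ τ q} => z.1)).det ≠ 0)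
    (hF : ∀ (k : ℕ) (e : Fin k → ι × Bool), Function.Injective e → (Fam k e ↔
      ((A.submatrix (Sum.elim (fun z : {z // ∀ q, z ≠ τ q} => z.1) τ)
        (Sum.elim (fun z : {z // ∀ q, z ≠ τ q} => z.1) τ)).submatrix (Sum.map id e) (Sum.map id e)).det ≠ 0)) :
    False := by
  obtain ⟨ε, hε, hA'⟩ : ∃ ε : K, ε * ε = 1 ∧ ∀ p q, A q p = ε * A p q := by
    rcases hA with hA | hA
    · refine ⟨1, one_mul 1, fun p q => ?_⟩
      have := congrFun (congrFun hA p) q
      rw [Matrix.transpose_apply] at this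
      rw [this, one_mul]
    · refine ⟨-1, by ring, fun p q => ?_⟩
      have := congrFun (congrFun hA p) q
      rw [Matrix.transpose_apply, Matrix.neg_apply] at this
      rw [this]
      ring
  have hε0 : ε ≠ 0 := by
    intro h
    rw [h, mul_zero] at hε
    exact zero_ne_one hε
  obtain ⟨S, hS, hSS⟩ := schur (A.submatrix (Sum.elim (fun z : {z // ∀ q, z ≠ τ q} => z.1) τ)
    (Sum.elim (fun z : {z // ∀ q, z ≠ τ q} => z.1) τ)) ε hε (fun p q => hA' _ _) (by
      convert h0 using 2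
      ext a b
      rfl)
  refine barrier h1 h2 S ε hε0 hS hC ?_
  intro m e he
  rw [hF m e he, ← hSS m e]

/-- (S3) PROOF. `ε` as in (S2). `A⁻¹` satisfies `A⁻¹ q p = ε * A⁻¹ p q` (`transpose_nonsing_inv`, as in the proof of `schur` in Mat.lean). Apply `barrier h1 h2 S ε _ _ hC` with
`S := A⁻¹.submatrix τ τ`. For injective `e : Fin k → ι × Bool` let `g : {z // ∀ i, z ≠ τ (e i)} ⊕ Fin k ≃ Z` (`Sum.elim val (fun i => τ (e i))`, bijective by `hτ`, `he`)
and `N := A.submatrix g g`: `N.det = A.det ≠ 0` (`det_submatrix_equiv_self`), `N⁻¹ = A⁻¹.submatrix g g` (`Matrix.inv_submatrix_equiv`). `jacobi N`: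
`(N.submatrix inl inl).det = N.det * (N⁻¹.submatrix inr inr).det`; the left side is the determinant in `hF`, and `N⁻¹.submatrix inr inr = S.submatrix e e`. -/
theorem no_lin_jacobi {ι : Type} [Fintype ι] [DecidableEq ι] {ν : Equiv.Perm ι} (h1 : ∀ v, ν v ≠ v)
    (h2 : ∀ v, ν v ≠ ν.symm v) {K : Type} [Field K] {Z : Type} [Fintype Z] (A : Matrix Z Z K)
    (hA : Aᵀ = A ∨ Aᵀ = -A) (τ : ι × Bool → Z) (hτ : Function.Injective τ)
    {Fam : (m : ℕ) → (Fin m → ι × Bool) → Prop} (hC : CycFam ν Fam) (h0 : A.det ≠ 0)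
    (hF : ∀ (k : ℕ) (e : Fin k → ι × Bool), Function.Injective e → (Fam k e ↔
      (A.submatrix (fun z : {z // ∀ i, z ≠ τ (e i)} => z.1)
        (fun z : {z // ∀ i, z ≠ τ (e i)} => z.1)).det ≠ 0)) :
    False := by
  obtain ⟨ε, hε, hA'⟩ : ∃ ε : K, ε * ε = 1 ∧ Aᵀ = ε • A := by
    rcases hA with hA | hA
    · exact ⟨1, one_mul 1, by rw [hA, one_smul]⟩
    · exact ⟨-1, by ring, by rw [hA, neg_smul, one_smul]⟩
  have hε0 : ε ≠ 0 := by
    intro h
    rw [h, mul_zero] at hε
    exact zero_ne_one hε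
  have hu : IsUnit A.det := isUnit_iff_ne_zero.2 h0
  have hAi : (A⁻¹)ᵀ = ε • A⁻¹ := by
    rw [transpose_nonsing_inv, hA']
    apply inv_eq_left_inv
    rw [smul_mul_smul_comm, hε, one_smul, nonsing_inv_mul A hu]
  have hS : ∀ p q, (A⁻¹.submatrix τ τ) q p = ε * (A⁻¹.submatrix τ τ) p q := by
    intro p q
    have := congrFun (congrFun hAi (τ p)) (τ q)
    rw [Matrix.transpose_apply, Matrix.smul_apply, smul_eq_mul] at this
    exact this
  refine barrier h1 h2 (A⁻¹.submatrix τ τ) ε hε0 hS hC ?_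
  intro m e he
  let g : {z // ∀ i, z ≠ τ (e i)} ⊕ Fin m → Z := Sum.elim (fun z => z.1) (fun i => τ (e i))
  have hg : Function.Bijective g := by
    constructor
    · intro a b hab
      rcases a with a | a <;> rcases b with b | b
      · have h1 : a.1 = b.1 := hab
        exact congrArg Sum.inl (Subtype.ext h1)
      · have h1 : a.1 = τ (e b) := hab
        exact absurd h1 (a.2 b)
      · have h1 : τ (e a) = b.1 := hab
        exact absurd h1.symm (b.2 a)
      · have h1 : τ (e a) = τ (e b) := hab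
        exact congrArg Sum.inr (he (hτ h1))
    · intro z
      by_cases hz : ∃ i, z = τ (e i)
      · obtain ⟨i, hi⟩ := hz
        exact ⟨Sum.inr i, hi.symm⟩
      · exact ⟨Sum.inl ⟨z, fun q hq => hz ⟨q, hq⟩⟩, rfl⟩
  let G := Equiv.ofBijective g hg
  have hN : (A.submatrix G G).det ≠ 0 := by
    rw [Matrix.det_submatrix_equiv_self]
    exact h0
  have hJ := jacobi (A.submatrix G G) hN
  rw [Matrix.inv_submatrix_equiv] at hJ
  have e1 : (A.submatrix G G).submatrix Sum.inl Sum.inl =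
      A.submatrix (fun z : {z // ∀ i, z ≠ τ (e i)} => z.1)
        (fun z : {z // ∀ i, z ≠ τ (e i)} => z.1) := by
    ext a b
    rfl
  have e2 : (A⁻¹.submatrix G G).submatrix Sum.inr Sum.inr = (A⁻¹.submatrix τ τ).submatrix e e := by
    ext a b
    rfl
  rw [e1, e2] at hJ
  rw [hF m e he, hJ]
  constructor
  · intro h h'
    exact h (by rw [h', mul_zero])
  · intro h
    exact mul_ne_zero hN h

end SQG
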