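import Pool.Agent.SQG.Defs

set_option autoImplicit false
set_option linter.unusedSectionVars false
set_option linter.unusedVariables false

/-! [SQG-T] Tutte matrices modulo 2: a matching gadget gives a linear gadget -/

open Finset Matrix
open scoped Classical

namespace SQG

/-- (T1) PROOF. `det_apply'`: the determinant is the sum over the permutations `p` of `sign p * ∏ A (p i) i`; in characteristic 2
the sign is 1 (`CharTwo`: `-1 = 1`, `Int.cast` of a sign). `Finset.sum_involution` with `p ↦ p⁻¹`: the products for `p` and `p⁻¹` are equal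
(`Equiv.prod_comp p` and `hs`), so the two terms add up to `2 * _ = 0` (`CharTwo.add_self_eq_zero`). If the term of `p` is not 0 and
`p⁻¹ = p`, then `f := p` is an involution and all factors `A (p i) i` are nonzero (a product with a zero factor is 0), so by `hs`
`A i (p i) ≠ 0`, contradiction to `hn`. (`hd` is not needed: a fixed point `i` of `p` has factor `A i i ≠ 0`, also excluded by `hn`
as `f` may have fixed points there.) -/
theorem det_zero_of_no_invol {R : Type} [CommRing R] [CharP R 2] {Y : Type} [Fintype Y] (A : Matrix Y Y R)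
    (hs : ∀ x y, A x y = A y x) (hn : ¬ ∃ f : Y → Y, (∀ y, f (f y) = y) ∧ ∀ y, A y (f y) ≠ 0) : A.det = 0 := by
  rw [Matrix.det_apply']
  have hprod : ∀ p : Equiv.Perm Y, ∏ i, A (p⁻¹ i) i = ∏ i, A (p i) i := by
    intro p
    rw [← Equiv.prod_comp p (fun i => A (p⁻¹ i) i)]
    refine Finset.prod_congr rfl fun i _ => ?_
    have e : p⁻¹ (p i) = i := p.symm_apply_apply i
    rw [e, hs]
  refine Finset.sum_involution (fun p _ => p⁻¹) ?_ ?_ (fun _ _ => Finset.mem_univ _) (fun p _ => inv_inv p)
  · intro p _
    rw [Equiv.Perm.sign_inv, hprod]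
    exact CharTwo.add_self_eq_zero _
  · intro p _ hne heq
    apply hn
    refine ⟨p, fun y => ?_, fun y => ?_⟩
    · have h1 : p⁻¹ y = p y := by
        have := congrArg (fun q : Equiv.Perm Y => q y) heq
        simpa using this
      rw [← h1]
      exact p.apply_symm_apply y
    · intro h0
      apply hne
      rw [hs] at h0
      have h3 : ∏ i, A (p i) i = 0 := Finset.prod_eq_zero (f := fun i => A (p i) i) (Finset.mem_univ y) h0
      rw [h3, mul_zero]

/-- the Tutte matrix modulo 2 -/
noncomputable def tm {Z : Type} (H : SimpleGraph Z) : Matrix Z Z (MvPolynomial (Sym2 Z) (ZMod 2)) :=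
  fun z w => if H.Adj z w then MvPolynomial.X s(z, w) else 0

theorem t_tm_symm {Z : Type} (H : SimpleGraph Z) (z w : Z) : tm H z w = tm H w z := by
  unfold tm
  rw [Sym2.eq_swap, H.adj_comm]

/-- (T2) PROOF. (→) contraposition of (T1) for the submatrix (symmetric: `Sym2.eq_swap`, `H.adj_comm`; `MvPolynomial (Sym2 Z) (ZMod 2)` has
`CharP _ 2`); an entry `A z w` is nonzero only if `H.Adj z.1 w.1`. (←) Let `g : Sym2 Z → ZMod 2`, `g c = 1` if `∃ z : {z // P z}, c = s(z.1, (f z).1)`
and `0` otherwise. The ring homomorphism `MvPolynomial.eval g` maps the determinant to the determinant of the matrix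
`B z w = if w = f z then 1 else 0` (`RingHom.map_det`; entry: if `H.Adj z.1 w.1` and `s(z.1, w.1) = s(y.1, (f y).1)` then `(z = y, w = f y)` or
`(z = f y, w = y = f z)`; conversely if `w = f z` then `H.Adj` and `g = 1`). `B` is the matrix of the permutation `f` (`f` is an involution, so it is an
`Equiv.Perm`: `Function.Involutive.toPerm`), `Matrix.det_permutation` (or `B * B = 1` because `B` is symmetric/an involution, so `det B * det B = 1`),
hence `det B ≠ 0`, and the determinant is not 0. -/
theorem tm_iff {Z : Type} [Fintype Z] (H : SimpleGraph Z) (P : Z → Prop) :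
    ((tm H).submatrix (fun z : {z // P z} => z.1) (fun z : {z // P z} => z.1)).det ≠ 0 ↔
      ∃ f : {z // P z} → {z // P z}, (∀ z, f (f z) = z) ∧ ∀ z, H.Adj z.1 (f z).1 := by
  constructor
  · intro h
    by_contra hn
    apply h
    have hs : ∀ x y : {z // P z}, (tm H).submatrix (fun z : {z // P z} => z.1) (fun z : {z // P z} => z.1) x y =
        (tm H).submatrix (fun z : {z // P z} => z.1) (fun z : {z // P z} => z.1) y x := by
      intro x y
      rw [Matrix.submatrix_apply, Matrix.submatrix_apply]
      exact t_tm_symm H _ _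
    have hn' : ¬ ∃ f : {z // P z} → {z // P z}, (∀ y, f (f y) = y) ∧
        ∀ y, (tm H).submatrix (fun z : {z // P z} => z.1) (fun z : {z // P z} => z.1) y (f y) ≠ 0 := by
      rintro ⟨f, h1, h2⟩
      apply hn
      refine ⟨f, h1, fun z => ?_⟩
      by_contra h3
      apply h2 z
      rw [Matrix.submatrix_apply]
      unfold tm
      rw [if_neg h3]
    have h5 := det_zero_of_no_invol (R := MvPolynomial (Sym2 Z) (ZMod 2)) (Y := {z // P z})
      ((tm H).submatrix (fun z : {z // P z} => z.1) (fun z : {z // P z} => z.1)) hs hn'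
    rw [← h5]
    congr
  · rintro ⟨f, h1, h2⟩ h0
    set g : Sym2 Z → ZMod 2 := fun c => if ∃ z : {z // P z}, c = s(z.1, (f z).1) then 1 else 0 with hg
    have h3 := congrArg (MvPolynomial.eval g) h0
    rw [RingHom.map_det, map_zero] at h3
    have h4 : (MvPolynomial.eval g).mapMatrix
        ((tm H).submatrix (fun z : {z // P z} => z.1) (fun z : {z // P z} => z.1)) =
        (fun z w : {z // P z} => if w = f z then (1 : ZMod 2) else 0 : Matrix {z // P z} {z // P z} (ZMod 2)) := by
      ext z w
      rw [RingHom.mapMatrix_apply, Matrix.map_apply, Matrix.submatrix_apply]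
      unfold tm
      by_cases hw : w = f z
      · rw [if_pos hw, hw, if_pos (h2 z), MvPolynomial.eval_X, hg]
        simp only
        rw [if_pos ⟨z, rfl⟩]
      · rw [if_neg hw]
        by_cases ha : H.Adj z.1 w.1
        · rw [if_pos ha, MvPolynomial.eval_X, hg]
          simp only
          rw [if_neg]
          rintro ⟨y, hy⟩
          apply hw
          rw [Sym2.eq_iff] at hy
          rcases hy with ⟨e1, e2⟩ | ⟨e1, e2⟩
          · have e1' : z = y := Subtype.ext e1
            have e2' : w = f y := Subtype.ext e2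
            rw [e2', e1']
          · have e1' : z = f y := Subtype.ext e1
            have e2' : w = y := Subtype.ext e2
            rw [e2', e1', h1]
        · rw [if_neg ha, map_zero]
    rw [h4] at h3
    set B : Matrix {z // P z} {z // P z} (ZMod 2) := fun z w => if w = f z then (1 : ZMod 2) else 0 with hB
    have hBB : B * B = 1 := by
      ext z w
      rw [Matrix.mul_apply, Finset.sum_eq_single (f z)]
      · simp only [hB, if_true, one_mul]
        rw [h1, Matrix.one_apply]
        by_cases hzw : z = w
        · rw [if_pos hzw.symm, if_pos hzw]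
        · rw [if_neg (fun e => hzw e.symm), if_neg hzw]
      · intro y _ hy
        simp only [hB, if_neg hy, zero_mul]
      · intro h
        exact absurd (Finset.mem_univ _) h
    have h5 : B.det * B.det = 1 := by rw [← Matrix.det_mul, hBB, Matrix.det_one]
    rw [h3, mul_zero] at h5
    exact zero_ne_one h5

/-- (T3) PROOF. (→) `M.IsPerfectMatching` gives for each vertex a unique `M`-neighbour (`M.IsMatching`, `IsSpanning`): let `f z` be it
(`Classical.choose`); `f (f z) = z` by uniqueness and symmetry; `M.adj_sub` gives adjacency in the induced graph, i.e. in `H`.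
(←) `M` with all vertices and `Adj z w := w = f z` (symmetric because `f` is an involution; adjacency in `H.induce` by hypothesis). -/
theorem pm_iff_f {Z : Type} [Fintype Z] (H : SimpleGraph Z) (P : Z → Prop) :
    (∃ M : (H.induce {z | P z}).Subgraph, M.IsPerfectMatching) ↔
      ∃ f : {z // P z} → {z // P z}, (∀ z, f (f z) = z) ∧ ∀ z, H.Adj z.1 (f z).1 := by
  constructor
  · rintro ⟨M, hM, hS⟩
    have h1 : ∀ z : {z // P z}, ∃! w : {z // P z}, M.Adj z w := fun z => hM (hS z)
    choose f hf1 hf2 using h1
    refine ⟨f, fun z => ?_, fun z => ?_⟩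
    · exact (hf2 (f z) z (hf1 z).symm).symm
    · exact M.adj_sub (hf1 z)
  · rintro ⟨f, h1, h2⟩
    refine ⟨{ verts := Set.univ, Adj := fun z w => w = f z, adj_sub := ?_, edge_vert := fun _ => Set.mem_univ _,
              symm := ?_ }, ?_, ?_⟩
    · intro z w hw
      rw [hw]
      exact h2 z
    · exact ⟨fun z w hw => by rw [hw, h1]⟩
    · intro z _
      exact ⟨f z, rfl, fun w hw => hw⟩
    · intro z
      exact Set.mem_univ _

theorem t_det_inst {R : Type} [CommRing R] {Y : Type} (d1 d2 : DecidableEq Y) (f1 f2 : Fintype Y)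
    (A : Matrix Y Y R) : @Matrix.det Y d1 f1 R _ A = @Matrix.det Y d2 f2 R _ A := by
  have h1 : d1 = d2 := Subsingleton.elim _ _
  have h2 : f1 = f2 := Subsingleton.elim _ _
  subst h1
  subst h2
  rfl

/-- (T4) PROOF. `K := FractionRing (MvPolynomial (Sym2 Z) (ZMod 2))`, `A := (tm H).map (algebraMap _ K)`; `Aᵀ = A` (`tm H` is symmetric); the submatrix
of `A` is the map of the submatrix of `tm H`, its determinant is the image of the determinant (`RingHom.map_det`), which is nonzero iff the
determinant is (`IsFractionRing.injective`, `map_eq_zero_iff`). Then (T2), (T3) with `P z := ∀ p ∈ X, z ≠ π p`. -/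
theorem lin_of_match {U : Type} [Fintype U] [DecidableEq U] {Al : SimpleGraph U → Prop} {n : U → ℕ}
    (h : MatchGadget Al n) : ∃ (K : Type) (_ : Field K), LinGadget K Al n := by
  obtain ⟨Z, hZ, H, π, hπ, hX⟩ := h
  refine ⟨FractionRing (MvPolynomial (Sym2 Z) (ZMod 2)), inferInstance, Z, hZ,
    (tm H).map (algebraMap _ (FractionRing (MvPolynomial (Sym2 Z) (ZMod 2)))), π, hπ, Or.inl ?_, fun X => ?_⟩
  · ext z w
    rw [Matrix.transpose_apply, Matrix.map_apply, Matrix.map_apply, t_tm_symm]
  · rw [hX X]
    have h1 := pm_iff_f H (fun z => ∀ p ∈ X, z ≠ π p)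
    have h2 := tm_iff H (fun z => ∀ p ∈ X, z ≠ π p)
    rw [← h2] at h1
    rw [h1]
    have h3 : ((tm H).map (algebraMap _ (FractionRing (MvPolynomial (Sym2 Z) (ZMod 2))))).submatrix
        (fun z : {z : Z // ∀ p ∈ X, z ≠ π p} => z.1) (fun z : {z : Z // ∀ p ∈ X, z ≠ π p} => z.1) =
        (algebraMap _ (FractionRing (MvPolynomial (Sym2 Z) (ZMod 2)))).mapMatrix
          ((tm H).submatrix (fun z : {z : Z // ∀ p ∈ X, z ≠ π p} => z.1)
            (fun z : {z : Z // ∀ p ∈ X, z ≠ π p} => z.1)) := rfl
    rw [h3, ← RingHom.map_det]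
    rw [Ne, Ne, map_eq_zero_iff _ (IsFractionRing.injective _ _)]
    rw [t_det_inst]

end SQG
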